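import Pool.Agent.Work.MP_b4417b_gt.Basic

set_option autoImplicit false

/-!
# sigma-disjoint pi-base times D-separable

PROOF.  Let `B` be the sigma-disjoint pi-base of `X` and `D n` dense in `X × Y`.  Partition `ℕ` into
infinitely many infinite sets by `Nat.unpair`.  Fix `m` and `b ∈ B m` (nonempty open).  For each `k` the
set `E k := Prod.snd '' (D (Nat.pair m k) ∩ (b ×ˢ univ))` is dense in `Y`.  Apply `DSep Y` to `E` to get
`Sep` sets `F' m b k ⊆ E k` with dense union over `k`; choose for every `y ∈ F' m b k` a point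
`(x y, y) ∈ D (Nat.pair m k)` with `x y ∈ b`, and let `F m b k` be the set of these points.  Put
`F (Nat.pair m k) := ⋃ b ∈ B m, F m b k`.  It is a subset of `D (Nat.pair m k)` and `Sep`: the point
`(x y, y)` of `F m b k` is isolated by `b ×ˢ W` where `W` isolates `y` in `F' m b k` (other members of
`B m` are disjoint from `b`).  The union is dense: a nonempty open set of `X × Y` contains
`U ×ˢ V`, `U` contains some `b ∈ B m`, and `V` contains a point of some `F' m b k`.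
-/

namespace Pool.Agent.Work.MP_b4417b_gt

open Cardinal Set

theorem prod_sigma {X Y : Type} [TopologicalSpace X] [TopologicalSpace Y]
    (hX : SigmaDisjointPiBase X) (hY : DSep Y) : DSep (X × Y) := by
  obtain ⟨B, hBd, hB1, hB2⟩ := hX
  rw [dsep_iff] at hY ⊢
  intro D hD
  have hBo : ∀ m, ∀ b ∈ B m, IsOpen b ∧ b.Nonempty := fun m b hb => hB1 b (mem_iUnion.2 ⟨m, hb⟩)
  -- the projections
  have h1 : ∀ m (b : B m), ∃ F' : ℕ → Set Y, (∀ k, F' k ⊆ Prod.snd '' (D (Nat.pair m k) ∩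
      (b.1 ×ˢ Set.univ)) ∧ Sep (F' k)) ∧ Dense (⋃ k, F' k) := by
    intro m b
    apply hY
    intro k
    rw [dense_iff_inter_open]
    intro V hV hVn
    obtain ⟨⟨x, y⟩, hxy, hxyD⟩ := (hD (Nat.pair m k)).inter_open_nonempty (b.1 ×ˢ V)
      ((hBo m b.1 b.2).1.prod hV) ((hBo m b.1 b.2).2.prod hVn)
    exact ⟨y, hxy.2, ⟨(x, y), ⟨hxyD, hxy.1, mem_univ _⟩, rfl⟩⟩
  choose F' hF' hF'd using h1
  have h2 : ∀ m (b : B m) k (y : F' m b k), ∃ x, (x, y.1) ∈ D (Nat.pair m k) ∧ x ∈ b.1 := by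
    intro m b k y
    obtain ⟨⟨x, y'⟩, ⟨hD', hb⟩, hy⟩ := (hF' m b k).1 y.2
    simp only at hy
    subst hy
    exact ⟨x, hD', hb.1⟩
  choose x hxD hxb using h2
  -- the sets for a pair of indices
  let F : ℕ → ℕ → Set (X × Y) := fun m k => ⋃ b : B m, range fun y : F' m b k => (x m b k y, y.1)
  have hFD : ∀ m k, F m k ⊆ D (Nat.pair m k) := by
    intro m k z hz
    obtain ⟨b, y, rfl⟩ := mem_iUnion.1 hz
    exact hxD m b k y
  have hFS : ∀ m k, Sep (F m k) := by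
    intro m k z hz
    obtain ⟨b, y, rfl⟩ := mem_iUnion.1 hz
    obtain ⟨W, hW, hyW, hW'⟩ := (hF' m b k).2 y.1 y.2
    refine ⟨b.1 ×ˢ W, (hBo m b.1 b.2).1.prod hW, ⟨hxb m b k y, hyW⟩, ?_⟩
    rintro z' hz' ⟨hz1, hz2⟩
    obtain ⟨b', y', rfl⟩ := mem_iUnion.1 hz'
    have h3 : b = b' := by
      by_contra hne
      have h4 := hBd m b.2 b'.2 (fun h => hne (Subtype.ext h))
      exact disjoint_left.1 h4 hz1 (hxb m b' k y')
    subst h3
    have h4 : y' = y := Subtype.ext (hW' y'.1 y'.2 hz2)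
    rw [h4]
  refine ⟨fun n => F (Nat.unpair n).1 (Nat.unpair n).2, fun n => ⟨?_, hFS _ _⟩, ?_⟩
  · have h3 := hFD (Nat.unpair n).1 (Nat.unpair n).2
    rwa [Nat.pair_unpair] at h3
  · rw [dense_iff_inter_open]
    rintro W hW ⟨⟨x₀, y₀⟩, hxy⟩
    obtain ⟨U, V, hU, hV, hxU, hyV, hUV⟩ := isOpen_prod_iff.1 hW x₀ y₀ hxy
    obtain ⟨b, hb, hbU⟩ := hB2 U hU ⟨x₀, hxU⟩
    obtain ⟨m, hm⟩ := mem_iUnion.1 hb
    obtain ⟨y, hyV', hyF⟩ := (hF'd m ⟨b, hm⟩).inter_open_nonempty V hV ⟨y₀, hyV⟩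
    obtain ⟨k, hk⟩ := mem_iUnion.1 hyF
    refine ⟨(x m ⟨b, hm⟩ k ⟨y, hk⟩, y), hUV ⟨hbU (hxb m ⟨b, hm⟩ k ⟨y, hk⟩), hyV'⟩,
      mem_iUnion.2 ⟨Nat.pair m k, ?_⟩⟩
    rw [Nat.unpair_pair]
    exact mem_iUnion.2 ⟨⟨b, hm⟩, ⟨y, hk⟩, rfl⟩

end Pool.Agent.Work.MP_b4417b_gt
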