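import Pool.Agent.Work.MP_b4417b_gt.Defs

set_option autoImplicit false

namespace Pool.Agent.Work.MP_b4417b_gt

open Cardinal Set

theorem sep_iff {X : Type} [TopologicalSpace X] (F : Set X) :
    Sep F ↔ DiscreteTopology F := by
  rw [discreteTopology_iff_isOpen_singleton]
  constructor
  · rintro h ⟨x, hx⟩
    obtain ⟨W, hW, hxW, hW'⟩ := h x hx
    rw [isOpen_induced_iff]
    refine ⟨W, hW, ?_⟩
    ext ⟨y, hy⟩
    simp only [mem_preimage, mem_singleton_iff, Subtype.mk.injEq]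
    constructor
    · intro h1
      exact hW' y hy h1
    · rintro rfl
      exact hxW
  · intro h x hx
    obtain ⟨W, hW, hW'⟩ := isOpen_induced_iff.1 (h ⟨x, hx⟩)
    have h1 : ∀ y (hy : y ∈ F), y ∈ W ↔ y = x := by
      intro y hy
      have h2 := congrArg (fun s => (⟨y, hy⟩ : F) ∈ s) hW'
      simpa using h2
    exact ⟨W, hW, (h1 x hx).2 rfl, fun y hy hyW => (h1 y hy).1 hyW⟩

theorem sep_mono {X : Type} [TopologicalSpace X] {F G : Set X} (h : F ⊆ G) (hG : Sep G) :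
    Sep F := by
  intro x hx
  obtain ⟨W, hW, hxW, hW'⟩ := hG x (h hx)
  exact ⟨W, hW, hxW, fun y hy hyW => hW' y (h hy) hyW⟩

theorem dsep_iff {X : Type} [TopologicalSpace X] :
    DSep X ↔ ∀ D : ℕ → Set X, (∀ n, Dense (D n)) →
      ∃ F : ℕ → Set X, (∀ n, F n ⊆ D n ∧ Sep (F n)) ∧ Dense (⋃ n, F n) := by
  unfold DSep
  simp only [sep_iff]

theorem dsep_of_selectable {X : Type} [TopologicalSpace X] (P : ℕ → Set (Set X))
    (hP : ∀ n, Selectable (P n)) (hB : IsPiBase (⋃ n, P n)) : DSep X := by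
  rw [dsep_iff]
  intro D hD
  choose F hF hS hm using fun n => hP n (D n) (hD n)
  refine ⟨F, fun n => ⟨hF n, hS n⟩, ?_⟩
  rw [dense_iff_inter_open]
  intro U hU hUn
  obtain ⟨b, hb, hbU⟩ := hB.2 U hU hUn
  obtain ⟨n, hn⟩ := mem_iUnion.1 hb
  obtain ⟨x, hx, hxb⟩ := hm n b hn
  exact ⟨x, hbU hxb, mem_iUnion.2 ⟨n, hx⟩⟩

theorem selectable_of_disjoint {X : Type} [TopologicalSpace X] (P : Set (Set X))
    (hP : ∀ p ∈ P, IsOpen p ∧ p.Nonempty) (hd : P.PairwiseDisjoint id) : Selectable P := by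
  intro D hD
  have h : ∀ p : P, ∃ x, x ∈ D ∧ x ∈ p.1 := by
    intro p
    obtain ⟨x, hx, hxD⟩ := hD.inter_open_nonempty p.1 (hP p.1 p.2).1 (hP p.1 p.2).2
    exact ⟨x, hxD, hx⟩
  choose x hxD hxp using h
  refine ⟨range x, ?_, ?_, ?_⟩
  · rintro _ ⟨p, rfl⟩
    exact hxD p
  · rintro _ ⟨p, rfl⟩
    refine ⟨p.1, (hP p.1 p.2).1, hxp p, ?_⟩
    rintro _ ⟨q, rfl⟩ hq
    have h1 : p = q := by
      by_contra hne
      have h2 := hd p.2 q.2 (fun h => hne (Subtype.ext h))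
      exact disjoint_left.1 h2 hq (hxp q)
    rw [h1]
  · intro p hp
    exact ⟨x ⟨p, hp⟩, ⟨_, rfl⟩, hxp ⟨p, hp⟩⟩

/-- disjoint union of selectable families is selectable -/
theorem selectable_biUnion {X : Type} [TopologicalSpace X] (A : Set (Set X))
    (hA : ∀ a ∈ A, IsOpen a) (hd : A.PairwiseDisjoint id) (P : Set X → Set (Set X))
    (hP : ∀ a ∈ A, ∀ p ∈ P a, p ⊆ a) (hS : ∀ a ∈ A, Selectable (P a)) :
    Selectable (⋃ a ∈ A, P a) := by
  intro D hD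
  choose F hFD hFS hFm using fun a : A => hS a.1 a.2 D hD
  refine ⟨⋃ a : A, F a ∩ a.1, ?_, ?_, ?_⟩
  · intro x hx
    obtain ⟨a, ha, _⟩ := mem_iUnion.1 hx
    exact hFD a ha
  · intro x hx
    obtain ⟨a, ha, hxa⟩ := mem_iUnion.1 hx
    obtain ⟨W, hW, hxW, hW'⟩ := hFS a x ha
    refine ⟨W ∩ a.1, hW.inter (hA a.1 a.2), ⟨hxW, hxa⟩, ?_⟩
    rintro y hy ⟨hyW, hya⟩
    obtain ⟨b, hb, hyb⟩ := mem_iUnion.1 hy
    have h1 : a = b := by
      by_contra hne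
      have h2 := hd a.2 b.2 (fun h => hne (Subtype.ext h))
      exact disjoint_left.1 h2 hya hyb
    subst h1
    exact hW' y hb hyW
  · intro p hp
    obtain ⟨a, ha, hpa⟩ := mem_iUnion₂.1 hp
    obtain ⟨x, hx, hxp⟩ := hFm ⟨a, ha⟩ p hpa
    exact ⟨x, mem_iUnion.2 ⟨⟨a, ha⟩, hx, hP a ha p hpa hxp⟩, hxp⟩

end Pool.Agent.Work.MP_b4417b_gt
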