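import Pool.Agent.Work.MP_b4417b_gt.Defs

set_option autoImplicit false

/-!
# Small subfamilies with dense union; closures and coordinates

PROOF of `exists_small_subfamily`.  By Zorn's lemma take a maximal family `𝒰` of pairwise disjoint
nonempty open sets each of which is contained in some `W y`.  By `hno`, `#𝒰 < θ`.  Choose `y u` with
`u ⊆ W (y u)` and let `Y'` be the set of the chosen `y u` (`#Y' ≤ #𝒰 < θ`).  If some point of
`⋃ y, W y` were not in the closure of `⋃ y ∈ Y', W y`, there would be a nonempty open set inside some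
`W y` disjoint from all members of `𝒰`, contradicting maximality.

PROOF of `closure_dep`.  Given `x ∈ closure V` and `y` with the same coordinates as `x` in `S`, the map
`φ z := fun i => if i ∈ S then z i else y i` is continuous, maps `V` into `V`, and `φ x = y`; so
`y ∈ φ '' closure V ⊆ closure (φ '' V) ⊆ closure V`.
-/

namespace Pool.Agent.Work.MP_b4417b_gt

open Cardinal Set

theorem exists_small_subfamily {Z Y : Type} [TopologicalSpace Z] (θ : Cardinal.{0})
    (hno : ∀ 𝒰 : Set (Set Z), (∀ u ∈ 𝒰, IsOpen u ∧ u.Nonempty) → 𝒰.PairwiseDisjoint id →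
      Cardinal.mk 𝒰 < θ)
    (W : Y → Set Z) (hW : ∀ y, IsOpen (W y)) :
    ∃ Y' : Set Y, Cardinal.mk Y' < θ ∧ (⋃ y, W y) ⊆ closure (⋃ y ∈ Y', W y) := by
  classical
  obtain ⟨𝒰, h𝒰⟩ := zorn_subset {𝒰 : Set (Set Z) | (∀ u ∈ 𝒰, (IsOpen u ∧ u.Nonempty) ∧
      ∃ y, u ⊆ W y) ∧ 𝒰.PairwiseDisjoint id} (by
    intro c hc hchain
    refine ⟨⋃₀ c, ⟨?_, ?_⟩, fun s hs => subset_sUnion_of_mem hs⟩
    · rintro u ⟨s, hs, hu⟩
      exact (hc hs).1 u hu
    · rw [Set.pairwiseDisjoint_sUnion hchain.directedOn]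
      exact fun a ha => (hc ha).2)
  obtain ⟨h1, h2⟩ := h𝒰.prop
  choose f hf using fun u : 𝒰 => (h1 u.1 u.2).2
  refine ⟨range f, lt_of_le_of_lt Cardinal.mk_range_le (hno 𝒰 (fun u hu => (h1 u hu).1) h2), ?_⟩
  intro z hz
  obtain ⟨y, hy⟩ := mem_iUnion.1 hz
  by_contra hcl
  set C := closure (⋃ y ∈ range f, W y) with hC
  have hsub : ∀ u ∈ 𝒰, u ⊆ C := by
    intro u hu
    refine Subset.trans ?_ subset_closure
    refine Subset.trans (hf ⟨u, hu⟩) ?_
    exact subset_biUnion_of_mem (u := W) (mem_range_self _)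
  have hO1 : IsOpen (W y ∩ Cᶜ) := (hW y).inter isClosed_closure.isOpen_compl
  have hO2 : (W y ∩ Cᶜ).Nonempty := ⟨z, hy, hcl⟩
  have hdis : ∀ u ∈ 𝒰, Disjoint (W y ∩ Cᶜ) u := by
    intro u hu
    rw [Set.disjoint_left]
    rintro a ⟨-, ha⟩ hau
    exact ha (hsub u hu hau)
  have hmem : insert (W y ∩ Cᶜ) 𝒰 ∈ {𝒰 : Set (Set Z) | (∀ u ∈ 𝒰, (IsOpen u ∧ u.Nonempty) ∧
      ∃ y, u ⊆ W y) ∧ 𝒰.PairwiseDisjoint id} := by
    refine ⟨?_, ?_⟩
    · rintro u (rfl | hu)
      · exact ⟨⟨hO1, hO2⟩, y, inter_subset_left⟩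
      · exact h1 u hu
    · rw [Set.pairwiseDisjoint_insert]
      exact ⟨h2, fun u hu _ => hdis u hu⟩
  have hin : W y ∩ Cᶜ ∈ 𝒰 := h𝒰.le_of_ge hmem (subset_insert _ _) (mem_insert _ _)
  obtain ⟨a, ha⟩ := hO2
  exact ha.2 (hsub _ hin ha)

theorem closure_dep {X ι : Type} [TopologicalSpace X] (S : Set ι) (V : Set (ι → X))
    (hV : ∀ x y : ι → X, (∀ i ∈ S, x i = y i) → x ∈ V → y ∈ V) (x y : ι → X)
    (hxy : ∀ i ∈ S, x i = y i) (hx : x ∈ closure V) : y ∈ closure V := by
  classical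
  set φ : (ι → X) → (ι → X) := fun z i => if i ∈ S then z i else y i with hφ
  have hcont : Continuous φ := by
    refine continuous_pi fun i => ?_
    by_cases h : i ∈ S
    · simp only [hφ, h, if_true]
      exact continuous_apply i
    · simp only [hφ, h, if_false]
      exact continuous_const
  have hφx : φ x = y := by
    funext i
    by_cases h : i ∈ S
    · simp only [hφ, h, if_true]
      exact hxy i h
    · simp only [hφ, h, if_false]
  have hmaps : MapsTo φ V V := by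
    intro z hz
    refine hV z (φ z) (fun i hi => ?_) hz
    simp only [hφ, hi, if_true]
  rw [← hφx]
  exact map_mem_closure hcont hx hmaps

end Pool.Agent.Work.MP_b4417b_gt
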