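import Pool.Agent.Work.MP_b4417b_gt.Defs

set_option autoImplicit false

/-!
# Uncountable Cantor cubes have no sigma-disjoint pi-base

PROOF of `cube_cellular_countable`.  Shrink every member to a nonempty cylinder
`[σ] = {x | ∀ i ∈ s, x i = σ i}`, `s` finite.  It suffices that a disjoint family of cylinders with
`s.card = n` is finite (at most `2 ^ n` members): take finitely many, say `m`, of them and let `t` be
the (finite) union of their supports; there are exactly `2 ^ (t.card - n)` functions `t → Bool`
extending each, these sets of functions are disjoint, so `m * 2 ^ (t.card - n) ≤ 2 ^ t.card`.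
(Alternatively use the product measure.)

PROOF of `cube_no_sigma`.  A sigma-disjoint pi-base `B` would be countable.  Choose for each member a
nonempty cylinder inside it, with finite support; the union of these supports is countable, so there
is a coordinate `i` outside.  The open set `{x | x i = true}` contains a member of `B`, hence a cylinder
not restricting the coordinate `i`: contradiction.
-/

namespace Pool.Agent.Work.MP_b4417b_gt

open Cardinal Set

private theorem cube_cyl {ι : Type} (u : Set (ι → Bool)) (hu : IsOpen u) (hne : u.Nonempty) :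
    ∃ (s : Finset ι) (σ : ι → Bool), ∀ x : ι → Bool, (∀ i ∈ s, x i = σ i) → x ∈ u := by
  obtain ⟨σ, hσ⟩ := hne
  obtain ⟨s, v, hv, hsub⟩ := isOpen_pi_iff.1 hu σ hσ
  refine ⟨s, σ, fun x hx => hsub fun i hi => ?_⟩
  rw [hx i hi]
  exact (hv i hi).2

/-- the fair coin -/
private noncomputable def coinB : MeasureTheory.Measure Bool :=
  (PMF.uniformOfFintype Bool).toMeasure

private instance : MeasureTheory.IsProbabilityMeasure coinB :=
  PMF.toMeasure.isProbabilityMeasure _

private theorem coinB_pos (b : Bool) : 0 < coinB {b} := by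
  rw [coinB, PMF.toMeasure_apply_singleton _ _ (MeasurableSet.singleton b)]
  simp

theorem cube_cellular_countable {ι : Type} (𝒰 : Set (Set (ι → Bool)))
    (hU : ∀ u ∈ 𝒰, IsOpen u ∧ u.Nonempty) (hd : 𝒰.PairwiseDisjoint id) : 𝒰.Countable := by
  classical
  have h : ∀ u : 𝒰, ∃ (s : Finset ι) (σ : ι → Bool), ∀ x : ι → Bool,
      (∀ i ∈ s, x i = σ i) → x ∈ u.1 := fun u => cube_cyl u.1 (hU u.1 u.2).1 (hU u.1 u.2).2
  choose s σ hs using h
  set A : 𝒰 → Set (ι → Bool) := fun u => Set.pi (s u : Set ι) (fun i => {σ u i}) with hA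
  have hmeas : ∀ u, MeasurableSet (A u) := fun u =>
    MeasurableSet.pi (s u).countable_toSet fun i _ => MeasurableSet.singleton _
  have hsub : ∀ u, A u ⊆ u.1 := by
    intro u x hx
    exact hs u x fun i hi => hx i hi
  have hdis : Pairwise (Function.onFun Disjoint A) := by
    intro u v huv
    have h1 : Disjoint u.1 v.1 := hd u.2 v.2 fun h2 => huv (Subtype.ext h2)
    exact h1.mono (hsub u) (hsub v)
  have hcount := MeasureTheory.Measure.countable_meas_pos_of_disjoint_iUnion
    (μ := MeasureTheory.Measure.infinitePi (fun _ : ι => coinB)) hmeas hdis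
  have hall : {u : 𝒰 | 0 < MeasureTheory.Measure.infinitePi (fun _ : ι => coinB) (A u)} =
      Set.univ := by
    rw [Set.eq_univ_iff_forall]
    intro u
    change 0 < MeasureTheory.Measure.infinitePi (fun _ : ι => coinB)
      (Set.pi (s u : Set ι) (fun i => {σ u i}))
    rw [MeasureTheory.Measure.infinitePi_pi _ (fun i _ => MeasurableSet.singleton _)]
    rw [pos_iff_ne_zero, Finset.prod_ne_zero_iff]
    exact fun i _ => (coinB_pos _).ne'
  rw [hall, Set.countable_univ_iff] at hcount
  exact hcount

theorem cube_no_sigma {ι : Type} (h : ℵ₀ < Cardinal.mk ι) :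
    ¬ SigmaDisjointPiBase (ι → Bool) := by
  classical
  rintro ⟨B, hB1, hB2, hB3⟩
  have hcount : (⋃ n, B n).Countable := by
    refine Set.countable_iUnion fun n => cube_cellular_countable (B n) (fun u hu => ?_) (hB1 n)
    exact hB2 u (mem_iUnion.2 ⟨n, hu⟩)
  have hcyl : ∀ u : (⋃ n, B n : Set (Set (ι → Bool))), ∃ (s : Finset ι) (σ : ι → Bool),
      ∀ x : ι → Bool, (∀ i ∈ s, x i = σ i) → x ∈ u.1 :=
    fun u => cube_cyl u.1 (hB2 u.1 u.2).1 (hB2 u.1 u.2).2
  choose s σ hs using hcyl
  have : Countable (⋃ n, B n : Set (Set (ι → Bool))) := hcount.to_subtype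
  have hS : (⋃ u, (s u : Set ι)).Countable :=
    Set.countable_iUnion fun u => (s u).countable_toSet
  obtain ⟨i, hi⟩ : ∃ i, i ∉ ⋃ u, (s u : Set ι) := by
    by_contra hcon
    push Not at hcon
    have h1 : (Set.univ : Set ι).Countable := hS.mono fun i _ => hcon i
    have h2 : Cardinal.mk ι ≤ ℵ₀ := Cardinal.mk_le_aleph0_iff.2 (Set.countable_univ_iff.1 h1)
    exact absurd h (not_lt.2 h2)
  have hci : Continuous fun p : ι → Bool => p i := continuous_apply i
  have hO : IsOpen {x : ι → Bool | x i = true} := by
    have h0 : IsOpen ({true} : Set Bool) := isOpen_discrete _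
    exact h0.preimage hci
  obtain ⟨b, hb, hbU⟩ := hB3 _ hO ⟨fun _ => true, rfl⟩
  have h1 : Function.update (σ ⟨b, hb⟩) i false ∈ b := by
    refine hs ⟨b, hb⟩ _ fun j hj => ?_
    have hji : j ≠ i := by
      rintro rfl
      exact hi (mem_iUnion.2 ⟨⟨b, hb⟩, hj⟩)
    rw [Function.update_of_ne hji]
  have h2 := hbU h1
  change Function.update (σ ⟨b, hb⟩) i false i = true at h2
  rw [Function.update_self] at h2
  exact Bool.false_ne_true h2

end Pool.Agent.Work.MP_b4417b_gt
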