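import Mathlib

set_option autoImplicit false

namespace Pool.Agent.Work.MP_b4417b_gt

open Cardinal Set

/-- `X` is D-separable: for every sequence of dense sets there are discrete subsets of them
whose union is dense. -/
def DSep (X : Type) [TopologicalSpace X] : Prop :=
  ∀ D : ℕ → Set X, (∀ n, Dense (D n)) →
    ∃ F : ℕ → Set X, (∀ n, F n ⊆ D n ∧ DiscreteTopology (F n)) ∧ Dense (⋃ n, F n)

/-- `B` is a pi-base of `X`. -/
def IsPiBase {X : Type} [TopologicalSpace X] (B : Set (Set X)) : Prop :=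
  (∀ b ∈ B, IsOpen b ∧ b.Nonempty) ∧
    ∀ U : Set X, IsOpen U → U.Nonempty → ∃ b ∈ B, b ⊆ U

/-- `X` has a sigma-disjoint pi-base. -/
def SigmaDisjointPiBase (X : Type) [TopologicalSpace X] : Prop :=
  ∃ B : ℕ → Set (Set X), (∀ n, (B n).PairwiseDisjoint id) ∧ IsPiBase (⋃ n, B n)

/-- `T` is a pi-base which is a tree under reverse inclusion: two members are disjoint or
comparable, and the members above a given member are well ordered by reverse inclusion. -/
def IsTreePiBase {X : Type} [TopologicalSpace X] (T : Set (Set X)) : Prop :=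
  IsPiBase T ∧ (∀ s ∈ T, ∀ t ∈ T, Disjoint s t ∨ s ⊆ t ∨ t ⊆ s) ∧
    ∀ t ∈ T, ∀ S : Set (Set X), S ⊆ {s ∈ T | t ⊆ s} → S.Nonempty → ∃ m ∈ S, ∀ s ∈ S, s ⊆ m

/-- discrete subset, in terms of isolating neighbourhoods -/
def Sep {X : Type} [TopologicalSpace X] (F : Set X) : Prop :=
  ∀ x ∈ F, ∃ W : Set X, IsOpen W ∧ x ∈ W ∧ ∀ y ∈ F, y ∈ W → y = x

/-- every dense set contains a discrete set meeting all members of `P` -/
def Selectable {X : Type} [TopologicalSpace X] (P : Set (Set X)) : Prop :=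
  ∀ D : Set X, Dense D → ∃ F : Set X, F ⊆ D ∧ Sep F ∧ ∀ p ∈ P, (F ∩ p).Nonempty

/-- three times iterated power -/
noncomputable def gap (μ : Cardinal.{0}) : Cardinal.{0} := 2 ^ ((2 : Cardinal.{0}) ^ ((2 : Cardinal.{0}) ^ μ))

/-- `X` is stratified: there are disjoint families `A n` of open sets and for `a` in `A n` a
family `P n a` of open subsets of `a`, all these together forming a pi-base, such that `P n a` has
at most one member or is much smaller than `D ∩ p` for all members `p` and all dense sets `D`. -/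
def Stratified (X : Type) [TopologicalSpace X] : Prop :=
  ∃ (A : ℕ → Set (Set X)) (P : ℕ → Set X → Set (Set X)),
    (∀ n, ∀ a ∈ A n, IsOpen a) ∧ (∀ n, (A n).PairwiseDisjoint id) ∧
    (∀ n, ∀ a ∈ A n, ∀ p ∈ P n a, p ⊆ a) ∧
    (∀ n, ∀ a ∈ A n, (P n a).Subsingleton ∨
      ∀ p ∈ P n a, ∀ D : Set X, Dense D →
        gap (max ℵ₀ (Cardinal.mk (P n a))) < Cardinal.mk (D ∩ p : Set X)) ∧
    IsPiBase (⋃ n, ⋃ a ∈ A n, P n a)

end Pool.Agent.Work.MP_b4417b_gt
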