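import Pool.Agent.Work.MP_b4417b_gt.Defs

set_option autoImplicit false

/-!
# A dense set of points of countable support obeying given dense open sets

PROOF.  Let `U` be a nonempty open set.  Choose basic boxes `p 0 ⊇ p 1 ⊇ ...` with finite supports
`s n` (`p n = {x | ∀ i ∈ s n, x i ∈ b n i}`, `b n i` open and nonempty, `s n ⊆ s (n+1)`), with
`closure (p (n+1)) ⊆ p n`, `p 0 ⊆ U`, and
`p (n+1) ⊆ G i j` for all `i ∈ s n` and `j ≤ n` (a finite intersection of dense open sets is dense
open, so one can shrink; the space is compact Hausdorff, hence regular, so a nonempty open set contains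
the closure of a nonempty box).  By compactness there is `x ∈ ⋂ n, closure (p n)`.  Let `A := ⋃ n, s n`
(countable) and let `x' i := x i` for `i ∈ A`, `x' i := x0` for `i ∉ A`.  Then `x' ∈ p n` for all `n`
(`x` is in `p n` and the box only restricts coordinates in `A`), so `x' ∈ U`.  The support of `x'` is
contained in `A`.  If `x' i ∈ O1` then `i ∈ A` because `x0 ∉ O1`; say `i ∈ s k`; for every `j`, with
`n = max k j`, `x' ∈ p (n+1) ⊆ G i j`.
-/

namespace Pool.Agent.Work.MP_b4417b_gt

open Cardinal Set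

private theorem fin_dense {Z κ : Type} [TopologicalSpace Z] (T : Finset κ) (g : κ → Set Z)
    (hg : ∀ k, IsOpen (g k) ∧ Dense (g k)) : IsOpen (⋂ k ∈ T, g k) ∧ Dense (⋂ k ∈ T, g k) := by
  classical
  induction T using Finset.induction_on with
  | empty => simp
  | insert a T _ ih =>
    rw [Finset.set_biInter_insert]
    exact ⟨(hg a).1.inter ih.1, (hg a).2.inter_of_isOpen_left ih.2 (hg a).1⟩

/-- boxes -/
private def OkBox {X ι : Type} [TopologicalSpace X] (p : Finset ι × (ι → Set X)) : Prop :=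
  IsOpen ((p.1 : Set ι).pi p.2) ∧ ((p.1 : Set ι).pi p.2).Nonempty

private theorem box_step {X ι : Type} [TopologicalSpace X] [CompactSpace X] [T2Space X]
    (s0 : Finset ι) (O : Set (ι → X)) (hO : IsOpen O) (hne : O.Nonempty) :
    ∃ p : Finset ι × (ι → Set X), OkBox p ∧ s0 ⊆ p.1 ∧ closure ((p.1 : Set ι).pi p.2) ⊆ O := by
  classical
  obtain ⟨x, hx⟩ := hne
  obtain ⟨t, ht, htc, hts⟩ := exists_mem_nhds_isClosed_subset (hO.mem_nhds hx)
  obtain ⟨I, u, hu, hsub⟩ := isOpen_pi_iff.1 (isOpen_interior (s := t)) x (mem_interior_iff_mem_nhds.2 ht)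
  refine ⟨(I ∪ s0, fun a => if a ∈ I then u a else univ), ⟨?_, ⟨x, ?_⟩⟩, Finset.subset_union_right, ?_⟩
  · refine isOpen_set_pi (Finset.finite_toSet _) ?_
    intro a _
    show IsOpen (if a ∈ I then u a else univ)
    split_ifs with h
    · exact (hu a h).1
    · exact isOpen_univ
  · intro a _
    show x a ∈ (if a ∈ I then u a else univ)
    split_ifs with h
    · exact (hu a h).2
    · trivial
  · refine (closure_minimal ?_ htc).trans hts
    refine Subset.trans ?_ (hsub.trans interior_subset)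
    intro y hy a ha
    have h1 := hy a (by simp only [Finset.coe_union]; exact Or.inl ha)
    have h2 : a ∈ I := ha
    simpa [h2] using h1

theorem dense_bad {X ι : Type} [TopologicalSpace X] [CompactSpace X] [T2Space X] (x0 : X)
    (O1 : Set X) (hx0 : x0 ∉ O1) (G : ι → ℕ → Set (ι → X))
    (hG : ∀ i n, IsOpen (G i n) ∧ Dense (G i n)) :
    Dense {x : ι → X | {i | x i ≠ x0}.Countable ∧ ∀ i, x i ∈ O1 → ∀ n, x ∈ G i n} := by
  classical
  rw [dense_iff_inter_open]
  intro U hU hUne
  obtain ⟨p0, hp0, -, hp0U⟩ := box_step (∅ : Finset ι) U hU hUne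
  have step : ∀ (p : {p : Finset ι × (ι → Set X) // OkBox p}) (n : ℕ),
      ∃ q : {p : Finset ι × (ι → Set X) // OkBox p}, p.1.1 ⊆ q.1.1 ∧
        closure ((q.1.1 : Set ι).pi q.1.2) ⊆ (p.1.1 : Set ι).pi p.1.2 ∧
        ∀ i ∈ p.1.1, ∀ j ≤ n, closure ((q.1.1 : Set ι).pi q.1.2) ⊆ G i j := by
    intro p n
    have hd := fin_dense (p.1.1 ×ˢ Finset.range (n + 1)) (fun k : ι × ℕ => G k.1 k.2)
      (fun k => hG k.1 k.2)
    have hne := hd.2.inter_open_nonempty _ p.2.1 p.2.2
    obtain ⟨q, hq, hq1, hq2⟩ := box_step p.1.1 _ (p.2.1.inter hd.1) hne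
    refine ⟨⟨q, hq⟩, hq1, hq2.trans inter_subset_left, fun i hi j hj => ?_⟩
    refine (hq2.trans inter_subset_right).trans ?_
    intro z hz
    have := Set.mem_iInter₂.1 hz (i, j) (by simp only [Finset.mem_product, Finset.mem_range]; exact ⟨hi, by omega⟩)
    exact this
  choose nxt hn1 hn2 hn3 using step
  let sq : ℕ → {p : Finset ι × (ι → Set X) // OkBox p} := fun n =>
    Nat.rec ⟨p0, hp0⟩ (fun n p => nxt p n) n
  have hs0 : (sq 0).1 = p0 := rfl
  have hss : ∀ n, sq (n + 1) = nxt (sq n) n := fun n => rfl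
  have hmono : Monotone (fun n => (sq n).1.1) := monotone_nat_of_le_succ (fun n => by
    rw [hss]; exact hn1 _ _)
  obtain ⟨x, hx⟩ := IsCompact.nonempty_iInter_of_sequence_nonempty_isCompact_isClosed
    (fun n => closure (((sq n).1.1 : Set ι).pi (sq n).1.2))
    (fun n => by rw [hss]; exact (hn2 (sq n) n).trans subset_closure)
    (fun n => (sq n).2.2.closure) isClosed_closure.isCompact (fun n => isClosed_closure)
  rw [Set.mem_iInter] at hx
  have hxb : ∀ n, x ∈ ((sq n).1.1 : Set ι).pi (sq n).1.2 := fun n =>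
    hn2 (sq n) n (by have := hx (n + 1); rwa [hss] at this)
  let x' : ι → X := fun i => if ∃ n, i ∈ (sq n).1.1 then x i else x0
  have hx'b : ∀ n, x' ∈ ((sq n).1.1 : Set ι).pi (sq n).1.2 := by
    intro n i hi
    have h1 : x' i = x i := if_pos ⟨n, hi⟩
    rw [h1]
    exact hxb n i hi
  refine ⟨x', hp0U (subset_closure (hx'b 0)), ?_, ?_⟩
  · refine Set.Countable.mono ?_ (Set.countable_iUnion fun n => ((sq n).1.1).countable_toSet)
    intro i hi
    rw [Set.mem_iUnion]
    by_contra hcon
    push Not at hcon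
    exact hi (if_neg (by push Not; exact hcon))
  · intro i hi j
    have hik : ∃ k, i ∈ (sq k).1.1 := by
      by_contra hcon
      have h1 : x' i = x0 := if_neg hcon
      exact hx0 (h1 ▸ hi)
    obtain ⟨k, hk⟩ := hik
    refine hn3 (sq (max k j)) (max k j) i (hmono (le_max_left k j) hk) j (le_max_right k j) ?_
    have := subset_closure (hx'b (max k j + 1))
    rwa [hss] at this

end Pool.Agent.Work.MP_b4417b_gt
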