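import Pool.Agent.Work.MP_b4417b_gt.Defs

set_option autoImplicit false

/-!
# End-homogeneous sets (the ramification step of the Erdos-Rado theorem)

PROOF.  Let `I := (Order.succ ν).ord.toType`, a well-ordered type of cardinality `ν⁺`, all of whose
proper initial segments have cardinality at most `ν`.  For `δ : Λ` define `ξ δ : I → Λ` by
well-founded recursion: `ξ δ i` is the least element of the set of all `α` with
`(∀ j < i, ξ δ j < α)` and `∀ s : Finset I, (∀ j ∈ s, j < i) → q α (s.image (ξ δ)) = q δ (s.image (ξ δ))`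
if this set is nonempty, and `δ` otherwise.  (As long as `ξ δ j < δ` for all `j < i`, the element `δ`
itself is in the set, so `ξ δ i ≤ δ`.)
CASE 1: for some `δ` one has `ξ δ i < δ` for all `i`.  Then `ξ δ` is strictly increasing, and
`H := range (ξ δ)` works: for a finite `s ⊆ H` and `γ = ξ δ i` above `s`, `s` is the image of a
finite set of indices below `i`, hence `q γ s = q δ s`, which does not depend on `γ`.
CASE 2: for all `δ` there is a least `o δ : I` with `¬ ξ δ (o δ) < δ`; then `ξ δ (o δ) = δ`.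
The map `δ ↦ (o δ, fun s : Finset (Set.Iio (o δ)) => q δ (s.image (ξ δ)))` is injective (by induction
on `i ≤ o` the values `ξ δ i` and `ξ δ' i` agree when the codes agree, because the two sets of which
they are the least elements agree), and the number of codes is at most
`ν⁺ * (2 ^ ν) ^ ν = 2 ^ ν`, contradicting `2 ^ ν < #Λ`.
-/

namespace Pool.Agent.Work.MP_b4417b_gt

open Cardinal Set

/-- the tree order: `α` is a predecessor of `δ` -/
private def Tm {Λ R : Type} [LinearOrder Λ] [WellFoundedLT Λ] (q : Λ → Finset Λ → R) (δ : Λ) :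
    Λ → Prop :=
  (wellFounded_lt (α := Λ)).fix
    (fun α ih => α < δ ∧ ∀ s : Finset Λ, (∀ β ∈ s, ∃ h : β < α, ih β h) → q α s = q δ s)

private theorem Tm_iff {Λ R : Type} [LinearOrder Λ] [WellFoundedLT Λ] (q : Λ → Finset Λ → R)
    (δ α : Λ) : Tm q δ α ↔
      α < δ ∧ ∀ s : Finset Λ, (∀ β ∈ s, β < α ∧ Tm q δ β) → q α s = q δ s := by
  unfold Tm
  rw [(wellFounded_lt (α := Λ)).fix_eq]
  simp only [exists_prop]

theorem end_hom {Λ R : Type} [LinearOrder Λ] [WellFoundedLT Λ] (ν : Cardinal.{0}) (hν : ℵ₀ ≤ ν)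
    (hR : Cardinal.mk R ≤ 2 ^ ν) (hΛ : 2 ^ ν < Cardinal.mk Λ) (q : Λ → Finset Λ → R) :
    ∃ H : Set Λ, ν < Cardinal.mk H ∧ ∀ s : Finset Λ, (∀ a ∈ s, a ∈ H) → ∀ γ ∈ H, ∀ γ' ∈ H,
      (∀ a ∈ s, a < γ) → (∀ a ∈ s, a < γ') → q γ s = q γ' s := by
  classical
  by_cases hex : ∃ δ, ν < Cardinal.mk {α | Tm q δ α}
  · obtain ⟨δ, hδ⟩ := hex
    refine ⟨{α | Tm q δ α}, hδ, fun s hs γ hγ γ' hγ' h1 h2 => ?_⟩
    have e1 := ((Tm_iff q δ γ).mp hγ).2 s fun β hβ => ⟨h1 β hβ, hs β hβ⟩
    have e2 := ((Tm_iff q δ γ').mp hγ').2 s fun β hβ => ⟨h2 β hβ, hs β hβ⟩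
    rw [e1, e2]
  · exfalso
    push Not at hex
    obtain ⟨J, hJ⟩ : ∃ J : Type, Cardinal.mk J = ν := ⟨ν.out, Cardinal.mk_out ν⟩
    have hemb : ∀ δ, Nonempty ({α // Tm q δ α} ↪ J) := by
      intro δ
      have := hex δ
      rw [← hJ] at this
      exact this
    have e : ∀ δ, {α // Tm q δ α} ↪ J := fun δ => (hemb δ).some
    -- the code
    let code : Λ → Set J × (J → Set J) × (Finset J → R) := fun δ =>
      (Set.range (e δ), fun a => {b | ∃ α β, e δ α = a ∧ e δ β = b ∧ α.1 < β.1},
        fun u => q δ ((u.preimage (e δ) (e δ).injective.injOn).map (Function.Embedding.subtype _)))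
    have hinj : Function.Injective code := by
      intro δ δ' hcode
      have c1 : Set.range (e δ) = Set.range (e δ') := congrArg Prod.fst hcode
      have c2 : ∀ a b, (∃ α β, e δ α = a ∧ e δ β = b ∧ α.1 < β.1) ↔
          (∃ α β, e δ' α = a ∧ e δ' β = b ∧ α.1 < β.1) := by
        intro a b
        have h := congrFun (congrArg (fun c => c.2.1) hcode) a
        exact Set.ext_iff.mp h b
      have c3 : ∀ u : Finset J,
          q δ ((u.preimage (e δ) (e δ).injective.injOn).map (Function.Embedding.subtype _)) =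
          q δ' ((u.preimage (e δ') (e δ').injective.injOn).map (Function.Embedding.subtype _)) :=
        fun u => congrFun (congrArg (fun c => c.2.2) hcode) u
      have r1 : ∀ α : {α // Tm q δ α}, ∃ α' : {α // Tm q δ' α}, e δ' α' = e δ α := by
        intro α
        have : e δ α ∈ Set.range (e δ') := c1 ▸ ⟨α, rfl⟩
        exact this
      have r2 : ∀ α : {α // Tm q δ' α}, ∃ α' : {α // Tm q δ α}, e δ α' = e δ' α := by
        intro α
        have : e δ' α ∈ Set.range (e δ) := c1 ▸ ⟨α, rfl⟩
        exact this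
      have o1 : ∀ (α β : {α // Tm q δ α}) (α' β' : {α // Tm q δ' α}), e δ α = e δ' α' →
          e δ β = e δ' β' → (α.1 < β.1 ↔ α'.1 < β'.1) := by
        intro α β α' β' h1 h2
        constructor
        · intro h
          obtain ⟨x, y, hx, hy, hxy⟩ := (c2 (e δ α) (e δ β)).mp ⟨α, β, rfl, rfl, h⟩
          rw [h1] at hx
          rw [h2] at hy
          have := (e δ').injective hx
          have := (e δ').injective hy
          subst_vars
          exact hxy
        · intro h
          obtain ⟨x, y, hx, hy, hxy⟩ := (c2 (e δ' α') (e δ' β')).mpr ⟨α', β', rfl, rfl, h⟩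
          rw [← h1] at hx
          rw [← h2] at hy
          have := (e δ).injective hx
          have := (e δ).injective hy
          subst_vars
          exact hxy
      -- colours agree on finite sets on which the two embeddings agree
      have col : ∀ s : Finset Λ, (∀ β ∈ s, ∃ (h : Tm q δ β) (h' : Tm q δ' β),
          e δ ⟨β, h⟩ = e δ' ⟨β, h'⟩) → q δ s = q δ' s := by
        intro s hs
        set u : Finset J := s.attach.image fun β => e δ ⟨β.1, (hs β.1 β.2).1⟩ with hu
        have hmem : ∀ j, j ∈ u ↔ ∃ β, ∃ hβ : β ∈ s, e δ ⟨β, (hs β hβ).1⟩ = j := by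
          intro j
          rw [hu, Finset.mem_image]
          constructor
          · rintro ⟨β, -, h⟩
            exact ⟨β.1, β.2, h⟩
          · rintro ⟨β, hβ, h⟩
            exact ⟨⟨β, hβ⟩, Finset.mem_attach _ _, h⟩
        have e1 : (u.preimage (e δ) (e δ).injective.injOn).map (Function.Embedding.subtype _) = s := by
          ext β
          simp only [Finset.mem_map, Finset.mem_preimage, Function.Embedding.subtype_apply,
            Subtype.exists, exists_and_right, exists_eq_right]
          constructor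
          · rintro ⟨h, hj⟩
            obtain ⟨β', hβ', hh⟩ := (hmem _).mp hj
            have := congrArg Subtype.val ((e δ).injective hh)
            simp only at this
            rw [← this]; exact hβ'
          · intro hβ
            exact ⟨(hs β hβ).1, (hmem _).mpr ⟨β, hβ, rfl⟩⟩
        have e2 : (u.preimage (e δ') (e δ').injective.injOn).map
            (Function.Embedding.subtype _) = s := by
          ext β
          simp only [Finset.mem_map, Finset.mem_preimage, Function.Embedding.subtype_apply,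
            Subtype.exists, exists_and_right, exists_eq_right]
          constructor
          · rintro ⟨h, hj⟩
            obtain ⟨β', hβ', hh⟩ := (hmem _).mp hj
            obtain ⟨_, h', heq⟩ := hs β' hβ'
            rw [heq] at hh
            have := congrArg Subtype.val ((e δ').injective hh)
            simp only at this
            rw [← this]; exact hβ'
          · intro hβ
            obtain ⟨h, h', heq⟩ := hs β hβ
            exact ⟨h', (hmem _).mpr ⟨β, hβ, heq⟩⟩
        have := c3 u
        rw [e1, e2] at this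
        exact this
      -- the two sets are equal
      have main : ∀ α : Λ, ∀ (h : Tm q δ α) (α' : {α // Tm q δ' α}), e δ ⟨α, h⟩ = e δ' α' →
          α = α'.1 := by
        intro α
        induction α using (wellFounded_lt (α := Λ)).induction with
        | _ α ih =>
          intro h α' heq
          have p1 : ∀ β, β < α → ∀ hβ : Tm q δ β, ∃ hβ' : Tm q δ' β, β < α'.1 ∧
              e δ ⟨β, hβ⟩ = e δ' ⟨β, hβ'⟩ := by
            intro β hβα hβ
            obtain ⟨β', hβ'⟩ := r1 ⟨β, hβ⟩
            have e1 : β = β'.1 := ih β hβα hβ β' hβ'.symm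
            have e2 := (o1 ⟨β, hβ⟩ ⟨α, h⟩ β' α' hβ'.symm heq).mp hβα
            subst e1
            exact ⟨β'.2, e2, hβ'.symm⟩
          have p2 : ∀ β, β < α'.1 → Tm q δ' β → β < α ∧ Tm q δ β := by
            intro β hβα hβ
            obtain ⟨β', hβ'⟩ := r2 ⟨β, hβ⟩
            have e2 := (o1 β' ⟨α, h⟩ ⟨β, hβ⟩ α' hβ' heq).mpr hβα
            have e1 : β'.1 = β := ih β'.1 e2 β'.2 ⟨β, hβ⟩ hβ'
            rw [← e1]
            exact ⟨e2, β'.2⟩
          have hcol : ∀ s : Finset Λ, (∀ β ∈ s, β < α ∧ Tm q δ β) → q δ s = q δ' s := by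
            intro s hs
            refine col s fun β hβ => ?_
            obtain ⟨h1, h2⟩ := hs β hβ
            obtain ⟨h3, -, h4⟩ := p1 β h1 h2
            exact ⟨h2, h3, h4⟩
          rcases lt_trichotomy α α'.1 with hlt | heq' | hgt
          · exfalso
            have hT : Tm q δ' α := by
              rw [Tm_iff]
              refine ⟨hlt.trans ((Tm_iff q δ' α'.1).mp α'.2).1, fun s hs => ?_⟩
              have hs' : ∀ β ∈ s, β < α ∧ Tm q δ β := fun β hβ =>
                p2 β ((hs β hβ).1.trans hlt) (hs β hβ).2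
              rw [((Tm_iff q δ α).mp h).2 s hs', hcol s hs']
            exact lt_irrefl _ (p2 α hlt hT).1
          · exact heq'
          · exfalso
            have hT : Tm q δ α'.1 := by
              rw [Tm_iff]
              refine ⟨hgt.trans ((Tm_iff q δ α).mp h).1, fun s hs => ?_⟩
              have hs' : ∀ β ∈ s, β < α ∧ Tm q δ β := fun β hβ =>
                ⟨(hs β hβ).1.trans hgt, (hs β hβ).2⟩
              have hs'' : ∀ β ∈ s, β < α'.1 ∧ Tm q δ' β := fun β hβ => by
                obtain ⟨h1, -, -⟩ := p1 β (hs' β hβ).1 (hs' β hβ).2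
                exact ⟨(hs β hβ).1, h1⟩
              rw [((Tm_iff q δ' α'.1).mp α'.2).2 s hs'', hcol s hs']
            obtain ⟨-, h2, -⟩ := p1 α'.1 hgt hT
            exact lt_irrefl _ h2
      have s1 : ∀ β (hβ : Tm q δ β), ∃ hβ' : Tm q δ' β, e δ ⟨β, hβ⟩ = e δ' ⟨β, hβ'⟩ := by
        intro β hβ
        obtain ⟨β', hβ'⟩ := r1 ⟨β, hβ⟩
        have e1 : β = β'.1 := main β hβ β' hβ'.symm
        subst e1
        exact ⟨β'.2, hβ'.symm⟩
      have s2 : ∀ β, Tm q δ' β → Tm q δ β := by
        intro β hβ
        obtain ⟨β', hβ'⟩ := r2 ⟨β, hβ⟩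
        have e1 : β'.1 = β := main β'.1 β'.2 ⟨β, hβ⟩ hβ'
        rw [← e1]; exact β'.2
      have hcol : ∀ s : Finset Λ, (∀ β ∈ s, Tm q δ β) → q δ s = q δ' s := by
        intro s hs
        refine col s fun β hβ => ?_
        obtain ⟨h3, h4⟩ := s1 β (hs β hβ)
        exact ⟨hs β hβ, h3, h4⟩
      rcases lt_trichotomy δ δ' with hlt | heq' | hgt
      · exfalso
        have hT : Tm q δ' δ := by
          rw [Tm_iff]
          exact ⟨hlt, fun s hs => hcol s fun β hβ => s2 β (hs β hβ).2⟩
        exact lt_irrefl _ ((Tm_iff q δ δ).mp (s2 δ hT)).1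
      · exact heq'
      · exfalso
        have hT : Tm q δ δ' := by
          rw [Tm_iff]
          exact ⟨hgt, fun s hs => (hcol s fun β hβ => (hs β hβ).2).symm⟩
        obtain ⟨h3, -⟩ := s1 δ' hT
        exact lt_irrefl _ ((Tm_iff q δ' δ').mp h3).1
    have hcard := Cardinal.mk_le_of_injective hinj
    have hJi : Infinite J := by
      rw [Cardinal.infinite_iff, hJ]; exact hν
    have hνν : ν * ν = ν := Cardinal.mul_eq_self hν
    have h2ν : ℵ₀ ≤ (2 : Cardinal.{0}) ^ ν := hν.trans (Cardinal.cantor ν).le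
    have hbound : Cardinal.mk (Set J × (J → Set J) × (Finset J → R)) ≤ 2 ^ ν := by
      rw [Cardinal.mk_prod, Cardinal.mk_prod]
      simp only [Cardinal.lift_id]
      have b1 : Cardinal.mk (Set J) = 2 ^ ν := by rw [Cardinal.mk_set, hJ]
      have b2 : Cardinal.mk (J → Set J) = 2 ^ ν := by
        rw [← Cardinal.power_def, b1, hJ, ← Cardinal.power_mul, hνν]
      have b3 : Cardinal.mk (Finset J → R) ≤ 2 ^ ν := by
        rw [← Cardinal.power_def, Cardinal.mk_finset_of_infinite, hJ]
        calc Cardinal.mk R ^ ν ≤ (2 ^ ν) ^ ν := Cardinal.power_le_power_right hR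
          _ = 2 ^ ν := by rw [← Cardinal.power_mul, hνν]
      rw [b1, b2]
      calc (2 : Cardinal.{0}) ^ ν * (2 ^ ν * Cardinal.mk (Finset J → R)) ≤
          2 ^ ν * (2 ^ ν * 2 ^ ν) := by gcongr
        _ = 2 ^ ν := by rw [Cardinal.mul_eq_self h2ν, Cardinal.mul_eq_self h2ν]
    exact absurd (hcard.trans hbound) (not_le.mpr hΛ)

end Pool.Agent.Work.MP_b4417b_gt
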