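import Pool.Agent.Work.MP_b4417b_gt.Defs

set_option autoImplicit false

/-!
# Enumeration of all sequences of sets depending on a bounded set of coordinates

PROOF.  For `β : ι` let `𝒞 β` be the set of all `O : ℕ → Set (ι → X)` such that every `O n` depends
only on the coordinates `≤ β`.  The map sending `O ∈ 𝒞 β` to
`fun n => {z : Set.Iic β → X | ∃ x ∈ O n, ∀ i, x i = z i}` is injective (on `𝒞 β`), so
`#(𝒞 β) ≤ (2 ^ (#X ^ #(Iic β))) ^ ℵ₀ < κ` as `κ` is a strong limit (bound everything by powers of two).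
Hence `𝒞 := ⋃ β, 𝒞 β` has `#𝒞 ≤ κ * κ = κ`, and it is nonempty.  Take a surjection `f : ι → ι × 𝒞`
(`#(ι × 𝒞) ≤ κ = #ι`) and put `c i := (f i).2`.  For `O ∈ 𝒞 β` the set `{i | c i = O}` maps onto `ι` by
`i ↦ (f i).1`, so it has cardinality `κ > #(Iic β)` and is not contained in `Iic β`.
-/

namespace Pool.Agent.Work.MP_b4417b_gt

open Cardinal Set

private def CC {X ι : Type} [LinearOrder ι] (β : ι) : Set (ℕ → Set (ι → X)) :=
  {O | ∀ n, ∀ x y : ι → X, (∀ i ≤ β, x i = y i) → x ∈ O n → y ∈ O n}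

private lemma mk_CC_le {X ι : Type} [LinearOrder ι] (κ : Cardinal.{0}) (hκ : κ.IsStrongLimit)
    (hκ0 : ℵ₀ < κ) (β : ι) (hIic : Cardinal.mk (Set.Iic β) < κ)
    (hX : Cardinal.mk X < κ) : Cardinal.mk (CC (X := X) β) ≤ κ := by
  have hinj : Function.Injective (fun O : CC (X := X) β =>
      (fun n => {z : Set.Iic β → X | ∃ x ∈ O.1 n, ∀ i, x i.1 = z i} :
        ℕ → Set (Set.Iic β → X))) := by
    intro O O' h
    apply Subtype.ext
    funext n
    have hn := congrFun h n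
    simp only at hn
    ext x
    constructor
    · intro hx
      have : (fun i : Set.Iic β => x i.1) ∈
          {z : Set.Iic β → X | ∃ x ∈ O.1 n, ∀ i, x i.1 = z i} := ⟨x, hx, fun _ => rfl⟩
      rw [hn] at this
      obtain ⟨y, hy, hyx⟩ := this
      exact O'.2 n y x (fun i hi => hyx ⟨i, hi⟩) hy
    · intro hx
      have : (fun i : Set.Iic β => x i.1) ∈
          {z : Set.Iic β → X | ∃ x ∈ O'.1 n, ∀ i, x i.1 = z i} := ⟨x, hx, fun _ => rfl⟩
      rw [← hn] at this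
      obtain ⟨y, hy, hyx⟩ := this
      exact O.2 n y x (fun i hi => hyx ⟨i, hi⟩) hy
  refine (mk_le_of_injective hinj).trans ?_
  have h1 : Cardinal.mk (ℕ → Set (Set.Iic β → X)) =
      ((2 : Cardinal.{0}) ^ (Cardinal.mk X ^ Cardinal.mk (Set.Iic β))) ^ ℵ₀ := by
    simp
  rw [h1]
  set μ : Cardinal.{0} := max (max (Cardinal.mk X) (Cardinal.mk (Set.Iic β))) ℵ₀ with hμ
  have hμκ : μ < κ := max_lt (max_lt hX hIic) hκ0
  have hμ0 : ℵ₀ ≤ μ := le_max_right _ _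
  have hXμ : Cardinal.mk X ≤ μ := (le_max_left _ _).trans (le_max_left _ _)
  have hIμ : Cardinal.mk (Set.Iic β) ≤ μ := (le_max_right _ _).trans (le_max_left _ _)
  have h2 : Cardinal.mk X ^ Cardinal.mk (Set.Iic β) ≤ 2 ^ μ := by
    calc Cardinal.mk X ^ Cardinal.mk (Set.Iic β) ≤ ((2 : Cardinal.{0}) ^ μ) ^ Cardinal.mk (Set.Iic β) :=
          Cardinal.power_le_power_right (hXμ.trans (cantor μ).le)
      _ ≤ ((2 : Cardinal.{0}) ^ μ) ^ μ :=
          Cardinal.power_le_power_left (Cardinal.power_ne_zero _ two_ne_zero) hIμ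
      _ = 2 ^ (μ * μ) := by rw [power_mul]
      _ = 2 ^ μ := by rw [mul_eq_self hμ0]
  have h3 : (2 : Cardinal.{0}) ^ (Cardinal.mk X ^ Cardinal.mk (Set.Iic β)) ≤ 2 ^ ((2 : Cardinal.{0}) ^ μ) :=
    Cardinal.power_le_power_left two_ne_zero h2
  have h4 : ℵ₀ ≤ (2 : Cardinal.{0}) ^ μ := hμ0.trans (cantor μ).le
  calc ((2 : Cardinal.{0}) ^ (Cardinal.mk X ^ Cardinal.mk (Set.Iic β))) ^ ℵ₀
      ≤ (2 ^ ((2 : Cardinal.{0}) ^ μ)) ^ ℵ₀ := Cardinal.power_le_power_right h3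
    _ = 2 ^ ((2 : Cardinal.{0}) ^ μ * ℵ₀) := by rw [power_mul]
    _ = 2 ^ ((2 : Cardinal.{0}) ^ μ) := by rw [mul_eq_left h4 h4 aleph0_ne_zero]
    _ ≤ κ := (hκ.two_power_lt (hκ.two_power_lt hμκ)).le

theorem exists_enum {X ι : Type} [LinearOrder ι] (κ : Cardinal.{0}) (hκ : κ.IsStrongLimit)
    (hκ0 : ℵ₀ < κ) (hι : Cardinal.mk ι = κ) (hIic : ∀ i : ι, Cardinal.mk (Set.Iic i) < κ)
    (hX : Cardinal.mk X < κ) :
    ∃ c : ι → ℕ → Set (ι → X), ∀ (β : ι) (O : ℕ → Set (ι → X)),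
      (∀ n, ∀ x y : ι → X, (∀ i ≤ β, x i = y i) → x ∈ O n → y ∈ O n) →
      ∃ i, β < i ∧ c i = O := by
  have hκinf : ℵ₀ ≤ κ := hκ0.le
  set C : Set (ℕ → Set (ι → X)) := ⋃ β, CC (X := X) β with hC
  have hCle : Cardinal.mk C ≤ κ := by
    refine (mk_iUnion_le_sum_mk).trans ?_
    refine (sum_le_sum _ (fun _ => κ) (fun β => mk_CC_le κ hκ hκ0 β (hIic β) hX)).trans ?_
    rw [sum_const', hι, mul_eq_self hκinf]
  have hιne : Nonempty ι := by
    rw [← mk_ne_zero_iff, hι]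
    exact (aleph0_pos.trans hκ0).ne'
  have hCne : Nonempty C := by
    obtain ⟨β⟩ := hιne
    refine ⟨⟨fun _ => ∅, ?_⟩⟩
    rw [hC, mem_iUnion]
    exact ⟨β, fun n x y _ h => h⟩
  have hprod : Cardinal.mk (ι × C) ≤ Cardinal.mk ι := by
    rw [mk_prod, lift_id, lift_id, hι]
    exact (mul_le_mul' le_rfl hCle).trans (mul_eq_self hκinf).le
  have hne2 : Nonempty (ι × C) := ⟨(Classical.choice hιne, Classical.choice hCne)⟩
  obtain ⟨e⟩ := Cardinal.le_def _ _ |>.1 hprod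
  set f : ι → ι × C := Function.invFun e with hf
  have hfs : Function.Surjective f := Function.invFun_surjective e.injective
  refine ⟨fun i => ((f i).2 : ℕ → Set (ι → X)), ?_⟩
  intro β O hO
  have hOC : O ∈ C := by
    rw [hC, mem_iUnion]
    exact ⟨β, hO⟩
  by_contra hcon
  push Not at hcon
  have hsub : ∀ i : ι, ((f i).2 : ℕ → Set (ι → X)) = O → i ≤ β := by
    intro i hi
    by_contra h
    exact hcon i (not_le.1 h) hi
  -- Iic β maps onto ι
  have hsurj : Function.Surjective (fun i : Set.Iic β => (f i.1).1) := by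
    intro j
    obtain ⟨i, hi⟩ := hfs (j, ⟨O, hOC⟩)
    refine ⟨⟨i, hsub i (by rw [hi])⟩, ?_⟩
    simp [hi]
  have := mk_le_of_surjective hsurj
  rw [hι] at this
  exact absurd (hIic β) (not_lt.2 this)

end Pool.Agent.Work.MP_b4417b_gt
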