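import Pool.Agent.Work.MP_b4417b_gt.EndHom

set_option autoImplicit false

/-!
# Erdos-Rado for triples

PROOF (uses `end_hom` of EndHom.lean, which another module proves).  Let `ν₁ = 2 ^ (2 ^ μ)`,
`ν₂ = 2 ^ μ`.  Apply `end_hom` with `ν₁` to `Λ` with colours `R := Finset-indexed colours`: take
`R := C` and `q γ s := if s = {a, b} with a < b then c a b γ else (any fixed colour)` (for instance
through `s.min'`, `s.max'`); this gives `H₁` with `ν₁ < #H₁` on which `c a b γ` (`a < b < γ`) does
not depend on `γ`.  Let `c' a b := c a b γ` for some/any `γ ∈ H₁` above `b` (an arbitrary value if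
there is none).  Apply `end_hom` with `ν₂` to the type `H₁` (note `2 ^ ν₂ = ν₁ < #H₁`), with
`q b s := c' a b` for `s = {a}`; this gives `H₂` with `2 ^ μ < #H₂` on which `c' a b` (`a < b`) does
not depend on `b` (discard the last element of `H₂`, if there is one, or handle it separately, so that
there is always a `γ` above).  Finally colour `a ∈ H₂` with `c'' a := c' a b`, `b > a`; there are at
most `2 ^ μ < #H₂` colours, so some colour class has more than `μ` elements (otherwise
`#H₂ ≤ 2 ^ μ * μ = 2 ^ μ`).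
-/

namespace Pool.Agent.Work.MP_b4417b_gt

open Cardinal Set

theorem erdos_rado_three {Λ C : Type} [LinearOrder Λ] [WellFoundedLT Λ] (μ : Cardinal.{0})
    (hμ : ℵ₀ ≤ μ) (hC : Cardinal.mk C ≤ 2 ^ μ) (hΛ : gap μ < Cardinal.mk Λ) (c : Λ → Λ → Λ → C) :
    ∃ H : Set Λ, μ < Cardinal.mk H ∧
      ∃ col : C, ∀ a ∈ H, ∀ b ∈ H, ∀ d ∈ H, a < b → b < d → c a b d = col := by
  classical
  set ν₂ : Cardinal.{0} := 2 ^ μ with hν₂
  set ν₁ : Cardinal.{0} := 2 ^ ν₂ with hν₁
  have h1 : μ < ν₂ := Cardinal.cantor μ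
  have h2 : ν₂ < ν₁ := Cardinal.cantor ν₂
  have h3 : ν₁ < 2 ^ ν₁ := Cardinal.cantor ν₁
  have hν₂i : ℵ₀ ≤ ν₂ := hμ.trans h1.le
  have hν₁i : ℵ₀ ≤ ν₁ := hν₂i.trans h2.le
  -- first application
  obtain ⟨H₁, hH₁, hq₁⟩ := end_hom (R := C) ν₁ hν₁i (hC.trans (h2.le.trans h3.le)) hΛ
    (fun γ s => if h : s.Nonempty then c (s.min' h) (s.max' h) γ else c γ γ γ)
  have e₁ : ∀ a ∈ H₁, ∀ b ∈ H₁, a < b → ∀ γ ∈ H₁, ∀ γ' ∈ H₁, b < γ → b < γ' →
      c a b γ = c a b γ' := by
    intro a ha b hb hab γ hγ γ' hγ' hbγ hbγ'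
    have h := hq₁ {a, b} (by simp [ha, hb]) γ hγ γ' hγ'
      (by
        intro x hx
        simp only [Finset.mem_insert, Finset.mem_singleton] at hx
        rcases hx with rfl | rfl
        · exact hab.trans hbγ
        · exact hbγ)
      (by
        intro x hx
        simp only [Finset.mem_insert, Finset.mem_singleton] at hx
        rcases hx with rfl | rfl
        · exact hab.trans hbγ'
        · exact hbγ')
    have hne : ({a, b} : Finset Λ).Nonempty := ⟨a, by simp⟩
    have hmin : ({a, b} : Finset Λ).min' hne = a := by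
      apply le_antisymm
      · exact Finset.min'_le _ _ (by simp)
      · refine Finset.le_min' _ _ _ fun x hx => ?_
        simp only [Finset.mem_insert, Finset.mem_singleton] at hx
        rcases hx with rfl | rfl
        · exact le_rfl
        · exact hab.le
    have hmax : ({a, b} : Finset Λ).max' hne = b := by
      apply le_antisymm
      · refine Finset.max'_le _ _ _ fun x hx => ?_
        simp only [Finset.mem_insert, Finset.mem_singleton] at hx
        rcases hx with rfl | rfl
        · exact hab.le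
        · exact le_rfl
      · exact Finset.le_max' _ _ (by simp)
    rw [dif_pos hne, dif_pos hne, hmin, hmax] at h
    exact h
  -- the derived colouring of pairs
  let c' : H₁ → H₁ → C := fun a b => if h : ∃ γ : H₁, b < γ then c a b h.choose else c a b b
  have hc' : ∀ a b γ : H₁, a < b → b < γ → c' a b = c a b γ := by
    intro a b γ hab hbγ
    have hex : ∃ γ : H₁, b < γ := ⟨γ, hbγ⟩
    have : c' a b = c a b hex.choose := dif_pos hex
    rw [this]
    exact e₁ a a.2 b b.2 hab _ hex.choose.2 γ γ.2 hex.choose_spec hbγ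
  obtain ⟨H₂, hH₂, hq₂⟩ := end_hom (Λ := H₁) (R := C) ν₂ hν₂i (hC.trans h2.le) hH₁
    (fun b s => if h : s.Nonempty then c' (s.min' h) b else c' b b)
  have e₂ : ∀ a ∈ H₂, ∀ b ∈ H₂, ∀ b' ∈ H₂, a < b → a < b' → c' a b = c' a b' := by
    intro a ha b hb b' hb' hab hab'
    have h := hq₂ {a} (by simp [ha]) b hb b' hb' (by simpa using hab) (by simpa using hab')
    have hne : ({a} : Finset H₁).Nonempty := ⟨a, by simp⟩
    rw [dif_pos hne, dif_pos hne, Finset.min'_singleton] at h
    exact h
  let c'' : H₂ → C := fun a => if h : ∃ b : H₂, a < b then c' a h.choose else c' a a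
  have hc'' : ∀ a b : H₂, a < b → c'' a = c' a b := by
    intro a b hab
    have hex : ∃ b : H₂, a < b := ⟨b, hab⟩
    have : c'' a = c' a hex.choose := dif_pos hex
    rw [this]
    exact e₂ a a.2 _ hex.choose.2 b b.2 hex.choose_spec hab
  obtain ⟨col, hcol⟩ := Cardinal.infinite_pigeonhole_card c'' (Order.succ ν₂)
    (Order.succ_le_of_lt hH₂) (hν₂i.trans (Order.le_succ _))
    ((hC.trans_lt (Order.lt_succ _)).trans_le (Cardinal.isRegular_succ hν₂i).2.ge)
  refine ⟨(fun x : H₂ => ((x : H₁) : Λ)) '' (c'' ⁻¹' {col}), ?_, col, ?_⟩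
  · rw [Cardinal.mk_image_eq (fun x y hxy => Subtype.ext (Subtype.ext hxy))]
    exact (h1.trans (Order.lt_succ _)).trans_le hcol
  · rintro _ ⟨a, ha, rfl⟩ _ ⟨b, hb, rfl⟩ _ ⟨d, hd, rfl⟩ hab hbd
    have h4 : c' a b = c a b d := hc' a b d hab hbd
    have h5 : c'' a = c' a b := hc'' a b hab
    have h6 : c'' a = col := ha
    rw [← h4, ← h5, h6]

/-- A well-order embeds into every well-order of larger cardinality. -/
theorem exists_strictMono_of_lt {I H : Type} [LinearOrder I] [WellFoundedLT I] [LinearOrder H]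
    [WellFoundedLT H] (h : Cardinal.mk I < Cardinal.mk H) : ∃ f : I → H, StrictMono f := by
  rcases InitialSeg.total ((· < ·) : I → I → Prop) ((· < ·) : H → H → Prop) with f | f
  · exact ⟨f, fun a b hab => f.map_rel_iff.mpr hab⟩
  · exact absurd (Cardinal.mk_le_of_injective f.injective) (not_le.mpr h)

end Pool.Agent.Work.MP_b4417b_gt
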