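import Pool.Agent.Work.MP_b4417b_gt.Basic
import Pool.Agent.Work.MP_b4417b_gt.DenseBad
import Pool.Agent.Work.MP_b4417b_gt.Cellular

set_option autoImplicit false

/-!
# Powers without cf(kappa) disjoint open sets are not D-separable

PROOF.  Choose `x0 ≠ x1` and disjoint open sets with `O1 ∋ x1` open, `x0 ∉ O1`.  Put `G i n := c i n`
if all `c i m` (`m : ℕ`) are open and dense, and `G i n := univ` otherwise.  Let `D` be the dense set of
`dense_bad`, and suppose `F n ⊆ D` are discrete (`Sep`) with dense union (`DSep` applied to the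
constant sequence `D`).  For `y ∈ F n` choose a basic box (finite support `supp n y`) `W n y ∋ y` with
`W n y ∩ F n = {y}`.  By `exists_small_subfamily` there is `F' n ⊆ F n` with `#(F' n) < θ` and
`⋃ y ∈ F n, W n y ⊆ closure (⋃ y ∈ F' n, W n y) =: closure (V n)`.
The set of all coordinates in `supp n y` or in the support `{i | y i ≠ x0}` of `y`, for `n : ℕ`,
`y ∈ F' n`, has cardinality `< θ` (`θ` regular, uncountable; countably many unions of fewer than `θ`
countable sets), hence it is bounded by some `β`.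
Let `O n := V n ∪ (closure (V n))ᶜ`.  It is open and dense, and depends only on the coordinates `≤ β`
(`closure_dep`).  So there is `i > β` with `c i = O`, `G i = O`.  The open set `{x | x i ∈ O1}` is
nonempty, so for some `n` there is `x ∈ F n` with `x i ∈ O1`; as `x ∈ D`, `x ∈ O n`.
* If `x ∈ W n y` with `y ∈ F' n`, then `x = y`, whose support is bounded by `β < i`, so `x i = x0 ∉ O1`,
  contradiction.
* If `x ∉ closure (V n)`: but `x ∈ W n x ⊆ closure (V n)`, contradiction.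
-/

namespace Pool.Agent.Work.MP_b4417b_gt

open Cardinal Set

theorem not_dsep_power {X ι : Type} [TopologicalSpace X] [CompactSpace X] [T2Space X]
    [Nontrivial X] [LinearOrder ι] (θ : Cardinal.{0}) (hθ : ℵ₀ < θ) (hreg : θ.IsRegular)
    (hb : ∀ S : Set ι, Cardinal.mk S < θ → ∃ β, ∀ i ∈ S, i ≤ β)
    (hno : ∀ 𝒰 : Set (Set (ι → X)), (∀ u ∈ 𝒰, IsOpen u ∧ u.Nonempty) →
      𝒰.PairwiseDisjoint id → Cardinal.mk 𝒰 < θ)
    (c : ι → ℕ → Set (ι → X))
    (hc : ∀ (β : ι) (O : ℕ → Set (ι → X)),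
      (∀ n, ∀ x y : ι → X, (∀ i ≤ β, x i = y i) → x ∈ O n → y ∈ O n) →
      ∃ i, β < i ∧ c i = O) :
    ¬ DSep (ι → X) := by
  classical
  intro hD
  obtain ⟨x0, x1, hx⟩ := exists_pair_ne X
  obtain ⟨O0, O1, hO0, hO1, h00, h11, hdis⟩ := t2_separation hx
  have hx0 : x0 ∉ O1 := fun h => hdis.le_bot ⟨h00, h⟩
  let G : ι → ℕ → Set (ι → X) := fun i n =>
    if (∀ m, IsOpen (c i m) ∧ Dense (c i m)) then c i n else univ
  have hG : ∀ i n, IsOpen (G i n) ∧ Dense (G i n) := by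
    intro i n
    by_cases h : ∀ m, IsOpen (c i m) ∧ Dense (c i m)
    · simp only [G, if_pos h]; exact h n
    · simp only [G, if_neg h]; exact ⟨isOpen_univ, dense_univ⟩
  have hDd := dense_bad x0 O1 hx0 G hG
  rw [dsep_iff] at hD
  obtain ⟨F, hF, hdense⟩ := hD _ (fun _ => hDd)
  have hbox : ∀ n, ∀ y : F n, ∃ (I : Finset ι) (B : Set (ι → X)), IsOpen B ∧ y.1 ∈ B ∧
      (∀ z ∈ F n, z ∈ B → z = y.1) ∧ (∀ a b : ι → X, (∀ i ∈ I, a i = b i) → a ∈ B → b ∈ B) := by
    intro n y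
    obtain ⟨W, hW, hyW, hWF⟩ := (hF n).2 y.1 y.2
    obtain ⟨I, u, hu, hsub⟩ := isOpen_pi_iff.1 hW y.1 hyW
    refine ⟨I, (I : Set ι).pi u, isOpen_set_pi (Finset.finite_toSet _) (fun a ha => (hu a ha).1),
      fun a ha => (hu a ha).2, fun z hz hzB => hWF z hz (hsub hzB), fun a b hab ha i hi => ?_⟩
    rw [← hab i hi]
    exact ha i hi
  choose I B hBo hyB hBF hBdep using hbox
  have hsmall := fun n => exists_small_subfamily θ hno (B n) (hBo n)
  choose Y' hY' hcov using hsmall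
  let S : Set ι := ⋃ n, ⋃ y ∈ Y' n, ((I n y : Set ι) ∪ {i | y.1 i ≠ x0})
  have hS : Cardinal.mk S < θ := by
    refine (Cardinal.card_iUnion_lt_iff_forall_of_isRegular hreg ?_).2 fun n => ?_
    · simpa using hθ
    · refine (Cardinal.card_biUnion_lt_iff_forall_of_isRegular hreg (hY' n)).2 fun y _ => ?_
      refine lt_of_le_of_lt ?_ hθ
      rw [Cardinal.le_aleph0_iff_set_countable]
      exact (Finset.countable_toSet _).union ((hF n).1 y.2).1
  obtain ⟨β, hβ⟩ := hb S hS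
  let V : ℕ → Set (ι → X) := fun n => ⋃ y ∈ Y' n, B n y
  have hVo : ∀ n, IsOpen (V n) := fun n => isOpen_biUnion fun y _ => hBo n y
  have hIS : ∀ n, ∀ y ∈ Y' n, ∀ i ∈ I n y, i ≤ β := fun n y hy i hi =>
    hβ i (Set.mem_iUnion.2 ⟨n, Set.mem_iUnion₂.2 ⟨y, hy, Or.inl hi⟩⟩)
  have hVdep : ∀ n, ∀ x y : ι → X, (∀ i ∈ {i | i ≤ β}, x i = y i) → x ∈ V n → y ∈ V n := by
    intro n x y hxy hxV
    obtain ⟨z, hz, hxz⟩ := Set.mem_iUnion₂.1 hxV
    exact Set.mem_iUnion₂.2 ⟨z, hz, hBdep n z x y (fun i hi => hxy i (hIS n z hz i hi)) hxz⟩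
  let O : ℕ → Set (ι → X) := fun n => V n ∪ (closure (V n))ᶜ
  have hOdep : ∀ n, ∀ x y : ι → X, (∀ i ≤ β, x i = y i) → x ∈ O n → y ∈ O n := by
    intro n x y hxy hxO
    rcases hxO with h | h
    · exact Or.inl (hVdep n x y hxy h)
    · refine Or.inr fun hy => h ?_
      exact closure_dep {i | i ≤ β} (V n) (hVdep n) y x (fun i hi => (hxy i hi).symm) hy
  obtain ⟨i, hi, hci⟩ := hc β O hOdep
  have hOod : ∀ m, IsOpen (c i m) ∧ Dense (c i m) := by
    intro m
    rw [hci]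
    refine ⟨(hVo m).union isClosed_closure.isOpen_compl, ?_⟩
    intro z
    by_cases hz : z ∈ closure (V m)
    · exact closure_mono subset_union_left hz
    · exact subset_closure (Or.inr hz)
  have hGi : ∀ n, G i n = O n := fun n => by
    simp only [G, if_pos hOod, hci]
  obtain ⟨x, hxi, hxF⟩ := hdense.inter_open_nonempty {x : ι → X | x i ∈ O1}
    (hO1.preimage (continuous_apply i)) ⟨fun _ => x1, h11⟩
  obtain ⟨n, hxn⟩ := Set.mem_iUnion.1 hxF
  have hxD := (hF n).1 hxn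
  have hxO : x ∈ O n := by
    rw [← hGi n]
    exact hxD.2 i hxi n
  rcases hxO with h | h
  · obtain ⟨y, hy, hxy⟩ := Set.mem_iUnion₂.1 h
    have e : x = y.1 := hBF n y x hxn hxy
    have h1 : i ∈ S := Set.mem_iUnion.2 ⟨n, Set.mem_iUnion₂.2 ⟨y, hy, Or.inr (by
      show y.1 i ≠ x0
      rw [← e]
      intro e2
      exact hx0 (e2 ▸ hxi))⟩⟩
    exact absurd (hβ i h1) (not_le.2 hi)
  · exact h (hcov n (Set.mem_iUnion.2 ⟨⟨x, hxn⟩, hyB n ⟨x, hxn⟩⟩))

end Pool.Agent.Work.MP_b4417b_gt
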