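import Pool.Agent.Work.MP_b4417b_gt.Large

set_option autoImplicit false

/-!
# Powers with many disjoint open sets are stratified

PROOF.  `ι` is infinite; fix an equivalence `e : ι ≃ ι × ℕ` and let `ρ k : (ι → X) → (ι → X)`,
`ρ k x i := x (e.symm (i, k))` (continuous), `S k := {e.symm (i, k) | i}`; the `S k` are pairwise
disjoint.  Put `A k := {ρ k ⁻¹' (U j) | j : J}` (disjoint open sets, because the `U j` are).  For
`a = ρ k ⁻¹' (U j)` (here `j` is determined by `a`, as the sets are nonempty (`ρ k` is surjective) and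
disjoint; or define `P k a` as the union over all `j` with `a = ρ k ⁻¹' (U j)`) let `P k a` be the
family of all sets `p ∩ a` with `p = {x | ∀ i ∈ s, x i ∈ b i}` for some finite `s ⊆ Aset j` with `s`
disjoint from `S k`, and some `b : ι → Set X` with `b i ∈ B` for `i ∈ s`, `b i = univ` for `i ∉ s`.
* `p ∩ a` is open; it is nonempty since `p` restricts only coordinates in `s` and `a` only
  coordinates in `S k`.
* `#(P k a) < κ`: there are fewer than `κ` finite subsets of `Aset j` and fewer than `κ` choices of `b`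
  (`κ` is a strong limit: `max ℵ₀ (max #(Aset j) #B)` is a bound).
* gap condition: with `lam = gap (max ℵ₀ #(P k a)) < κ` also `2 ^ lam < κ = #ι`, so `dense_large` gives
  `lam < #(D ∩ p)`.
* pi-base: a nonempty open set contains a nonempty basic box, and inside that a box
  `p = {x | ∀ i ∈ s, x i ∈ b i}` with `b i ∈ B` (`s` finite).  As `s` is finite it is disjoint from
  `S k` for some `k`; choose `j` with `s ⊆ Aset j`; then `p ∩ ρ k ⁻¹' (U j)` is in the family.
-/

namespace Pool.Agent.Work.MP_b4417b_gt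

open Cardinal Set

theorem stratified_power {X ι J : Type} [TopologicalSpace X] [T2Space X] [Nontrivial X]
    (κ : Cardinal.{0}) (hκ : κ.IsStrongLimit) (hκ0 : ℵ₀ < κ) (hι : Cardinal.mk ι = κ)
    (B : Set (Set X)) (hB : IsPiBase B) (hBc : Cardinal.mk B < κ)
    (Aset : J → Set ι) (hA : ∀ s : Finset ι, ∃ j, (s : Set ι) ⊆ Aset j)
    (hAc : ∀ j, Cardinal.mk (Aset j) < κ)
    (U : J → Set (ι → X)) (hU : ∀ j, IsOpen (U j) ∧ (U j).Nonempty)
    (hd : Pairwise (Function.onFun Disjoint U)) : Stratified (ι → X) := by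
  classical
  have hinf : Infinite ι := by
    rw [Cardinal.infinite_iff, hι]
    exact hκ0.le
  obtain ⟨e⟩ : Nonempty (ι ≃ ι × ℕ) := by
    rw [← Cardinal.eq, Cardinal.mk_prod]
    simp only [Cardinal.lift_id, Cardinal.mk_nat]
    rw [Cardinal.mul_aleph0_eq (by rw [hι]; exact hκ0.le)]
  let ρ : ℕ → (ι → X) → (ι → X) := fun k x i => x (e.symm (i, k))
  have hρc : ∀ k, Continuous (ρ k) := fun k => continuous_pi fun i => continuous_apply _
  have hρs : ∀ k, Function.Surjective (ρ k) := by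
    intro k v
    refine ⟨fun i => v (e i).1, ?_⟩
    funext i
    simp [ρ]
  let A : ℕ → Set (Set (ι → X)) := fun k => range (fun j => ρ k ⁻¹' (U j))
  have huniq : ∀ k j j', ρ k ⁻¹' (U j) = ρ k ⁻¹' (U j') → j = j' := by
    intro k j j' h
    by_contra hne
    obtain ⟨v, hv⟩ := (hU j).2
    obtain ⟨x, rfl⟩ := hρs k v
    have h2 : x ∈ ρ k ⁻¹' (U j') := h ▸ hv
    exact (hd hne).le_bot ⟨hv, h2⟩
  let bx : Finset (ι × Set X) → Set (ι → X) := fun T => {x | ∀ t ∈ T, x t.1 ∈ t.2}
  let P : ℕ → Set (ι → X) → Set (Set (ι → X)) := fun k a =>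
    {q | ∃ j, a = ρ k ⁻¹' (U j) ∧ ∃ T : Finset (ι × Set X),
      (∀ t ∈ T, t.1 ∈ Aset j ∧ t.2 ∈ B) ∧ q.Nonempty ∧ q = bx T ∩ a}
  have hPopen : ∀ k a, ∀ q ∈ P k a, IsOpen q := by
    rintro k a q ⟨j, rfl, T, hT, hne, rfl⟩
    refine IsOpen.inter ?_ ((hU j).1.preimage (hρc k))
    have : bx T = ⋂ t ∈ T, (fun x : ι → X => x t.1) ⁻¹' t.2 := by
      ext x; simp [bx]
    rw [this]
    exact isOpen_biInter_finset fun t ht => (hB.1 _ (hT t ht).2).1.preimage (continuous_apply _)
  have hPcard : ∀ k a, Cardinal.mk (P k a) < κ := by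
    intro k a
    by_cases hex : ∃ j, a = ρ k ⁻¹' (U j)
    · obtain ⟨j, hj⟩ := hex
      have hsub : P k a ⊆ range (fun T : Finset (Aset j × B) =>
          bx (T.image fun t => (t.1.1, t.2.1)) ∩ a) := by
        rintro q ⟨j', hj', T, hT, hne, rfl⟩
        have hjj : j' = j := huniq k _ _ (hj'.symm.trans hj)
        subst hjj
        refine ⟨T.attach.image (fun t => (⟨t.1.1, (hT t.1 t.2).1⟩, ⟨t.1.2, (hT t.1 t.2).2⟩)), ?_⟩
        show bx _ ∩ a = bx T ∩ a
        congr 1
        ext x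
        simp only [bx, Finset.mem_image, Set.mem_ofPred_eq]
        constructor
        · intro h t ht
          exact h t ⟨_, ⟨⟨t, ht⟩, Finset.mem_attach _ _, rfl⟩, rfl⟩
        · rintro h t ⟨_, ⟨t', -, rfl⟩, rfl⟩
          exact h t'.1 t'.2
      refine lt_of_le_of_lt (Cardinal.mk_le_mk_of_subset hsub) ?_
      refine lt_of_le_of_lt Cardinal.mk_range_le ?_
      have hprod : Cardinal.mk (Aset j × B) < κ := by
        rw [Cardinal.mk_prod]
        simp only [Cardinal.lift_id]
        exact Cardinal.mul_lt_of_lt hκ0.le (hAc j) hBc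
      rcases finite_or_infinite (Aset j × B) with hf | hi
      · exact lt_of_lt_of_le (Cardinal.lt_aleph0_of_finite _) hκ0.le
      · rw [Cardinal.mk_finset_of_infinite]
        exact hprod
    · have : P k a = ∅ := by
        rw [Set.eq_empty_iff_forall_notMem]
        rintro q ⟨j, hj, -⟩
        exact hex ⟨j, hj⟩
      rw [this]
      simpa using lt_trans Cardinal.aleph0_pos hκ0
  refine ⟨A, P, ?_, ?_, ?_, ?_, ?_, ?_⟩
  · rintro k a ⟨j, rfl⟩
    exact (hU j).1.preimage (hρc k)
  · rintro k a ⟨j, rfl⟩ b ⟨j', rfl⟩ hne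
    have hjj : j ≠ j' := fun h => hne (by rw [h])
    exact (hd hjj).preimage (ρ k)
  · rintro k a - q ⟨j, hj, T, hT, hne, rfl⟩
    exact inter_subset_right
  · intro k a _
    right
    intro q hq D hD
    have hne : q.Nonempty := by
      obtain ⟨j, hj, T, hT, hne, -⟩ := hq
      exact hne
    have h1 : max ℵ₀ (Cardinal.mk (P k a)) < κ := max_lt hκ0 (hPcard k a)
    have h2 := hκ.isStrongPrelimit (hκ.isStrongPrelimit (hκ.isStrongPrelimit h1))
    refine dense_large _ ?_ ?_ D hD q (hPopen k a q hq) hne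
    · exact ((((le_max_left _ _).trans (Cardinal.cantor _).le).trans (Cardinal.cantor _).le).trans
        (Cardinal.cantor _).le)
    · rw [hι]
      exact hκ.isStrongPrelimit h2
  · intro q hq
    simp only [Set.mem_iUnion] at hq
    obtain ⟨k, a, ha, hq⟩ := hq
    refine ⟨hPopen k a q hq, ?_⟩
    obtain ⟨j, hj, T, hT, hne, -⟩ := hq
    exact hne
  · intro U0 hU0 hne0
    obtain ⟨f, hf⟩ := hne0
    obtain ⟨I, u, hu, hsub⟩ := isOpen_pi_iff.1 hU0 f hf
    have hb : ∀ i, ∃ b : Set X, i ∈ I → b ∈ B ∧ b ⊆ u i := by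
      intro i
      by_cases hi : i ∈ I
      · obtain ⟨b, hb, hbu⟩ := hB.2 (u i) (hu i hi).1 ⟨_, (hu i hi).2⟩
        exact ⟨b, fun _ => ⟨hb, hbu⟩⟩
      · exact ⟨∅, fun h => absurd h hi⟩
    choose b hb using hb
    have hw : ∀ i, ∃ w : X, i ∈ I → w ∈ b i := by
      intro i
      by_cases hi : i ∈ I
      · obtain ⟨w, hw⟩ := (hB.1 _ (hb i hi).1).2
        exact ⟨w, fun _ => hw⟩
      · exact ⟨f i, fun h => absurd h hi⟩
    choose w hw using hw
    obtain ⟨k, hk⟩ := Infinite.exists_notMem_finset (I.image fun i => (e i).2)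
    obtain ⟨j, hj⟩ := hA I
    obtain ⟨v, hv⟩ := (hU j).2
    refine ⟨bx (I.image fun i => (i, b i)) ∩ ρ k ⁻¹' (U j), ?_, ?_⟩
    · simp only [Set.mem_iUnion]
      refine ⟨k, ρ k ⁻¹' (U j), ⟨j, rfl⟩, j, rfl, I.image (fun i => (i, b i)), ?_, ?_, rfl⟩
      · intro t ht
        obtain ⟨i, hi, rfl⟩ := Finset.mem_image.1 ht
        exact ⟨hj hi, (hb i hi).1⟩
      · refine ⟨fun i => if (e i).2 = k then v (e i).1 else w i, ?_, ?_⟩
        · intro t ht
          obtain ⟨i, hi, rfl⟩ := Finset.mem_image.1 ht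
          have h1 : (e i).2 ≠ k := fun h => hk (Finset.mem_image.2 ⟨i, hi, h⟩)
          show (if (e i).2 = k then v (e i).1 else w i) ∈ b i
          rw [if_neg h1]
          exact hw i hi
        · have : ρ k (fun i => if (e i).2 = k then v (e i).1 else w i) = v := by
            funext i
            simp [ρ]
          rw [Set.mem_preimage, this]
          exact hv
    · rintro x ⟨hx, -⟩
      apply hsub
      intro i hi
      exact (hb i hi).2 (hx (i, b i) (Finset.mem_image.2 ⟨i, hi, rfl⟩))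

end Pool.Agent.Work.MP_b4417b_gt
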