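import Pool.Agent.Work.MP_b4417b_gt.Strat
import Pool.Agent.Work.MP_b4417b_gt.PowerPos
import Pool.Agent.Work.MP_b4417b_gt.NegMain
import Pool.Agent.Work.MP_b4417b_gt.Enum
import Pool.Agent.Work.MP_b4417b_gt.Cube

set_option autoImplicit false

namespace Pool.Agent.Work.MP_b4417b_gt

open Cardinal Set

/-- positive direction -/
theorem stratified_of_cellular {X ι : Type} [TopologicalSpace X] [T2Space X] [Nontrivial X]
    (κ : Cardinal.{0}) (hκ : κ.IsStrongLimit) (hκ0 : ℵ₀ < κ) (hι : Cardinal.mk ι = κ)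
    (B : Set (Set X)) (hB : IsPiBase B) (hBc : Cardinal.mk B < κ)
    (𝒰 : Set (Set (ι → X))) (hU : ∀ u ∈ 𝒰, IsOpen u ∧ u.Nonempty)
    (hd : 𝒰.PairwiseDisjoint id) (hc : Cardinal.mk 𝒰 = κ.ord.cof) : Stratified (ι → X) := by
  have hkc : Cardinal.mk κ.ord.ToType = κ := by simp
  obtain ⟨e⟩ : Nonempty (ι ≃ κ.ord.ToType) := Cardinal.eq.1 (hι.trans hkc.symm)
  obtain ⟨S, hS, hSc⟩ := Order.exists_cof_eq κ.ord.ToType
  rw [Ordinal.cof_toType] at hSc
  obtain ⟨g⟩ : Nonempty (𝒰 ≃ S) := Cardinal.eq.1 (hc.trans hSc.symm)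
  have hIic : ∀ i : κ.ord.ToType, Cardinal.mk (Set.Iic i) < κ := by
    intro i
    have h1 : (Set.Iic i) = insert i (Set.Iio i) := by
      ext x; simp [le_iff_lt_or_eq, or_comm]
    have h2 : Cardinal.mk (Set.Iio i) < κ := mk_Iio_toType_ord_lt i
    rw [h1]
    refine lt_of_le_of_lt (Cardinal.mk_insert_le) ?_
    exact Cardinal.add_lt_of_lt hκ.aleph0_le h2 (lt_of_lt_of_le Cardinal.one_lt_aleph0 hκ.aleph0_le)
  refine stratified_power κ hκ hκ0 hι B hB hBc (J := 𝒰)
    (fun j => {i | e i ≤ (g j : κ.ord.ToType)}) ?_ ?_ (fun j => j) (fun j => hU j j.2) ?_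
  · intro s
    have hne : Nonempty κ.ord.ToType := by
      rw [← Cardinal.mk_ne_zero_iff, hkc]
      exact (Cardinal.aleph0_pos.trans hκ0).ne'
    obtain ⟨m, hm⟩ : ∃ m : κ.ord.ToType, ∀ i ∈ s, e i ≤ m := by
      obtain ⟨m, hm⟩ := (s.image e).exists_le
      exact ⟨m, fun i hi => hm _ (Finset.mem_image_of_mem _ hi)⟩
    obtain ⟨t, ht, hmt⟩ := hS m
    refine ⟨g.symm ⟨t, ht⟩, ?_⟩
    intro i hi
    simp only [Set.mem_ofPred_eq, Equiv.apply_symm_apply]
    exact (hm i hi).trans hmt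
  · intro j
    have : Cardinal.mk ({i | e i ≤ (g j : κ.ord.ToType)} : Set ι)
        = Cardinal.mk (Set.Iic (g j : κ.ord.ToType)) := by
      refine Cardinal.mk_congr (e.subtypeEquiv ?_)
      intro a; rfl
    rw [this]
    exact hIic _
  · intro a b hab
    exact hd a.2 b.2 (fun h => hab (Subtype.ext h))

/-- main theorem on powers -/
theorem powers_iff {X ι : Type} [TopologicalSpace X] [CompactSpace X] [T2Space X] [Nontrivial X]
    (κ : Cardinal.{0}) (hκ : κ.IsStrongLimit) (hκ0 : ℵ₀ < κ) (hι : Cardinal.mk ι = κ)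
    (B : Set (Set X)) (hB : IsPiBase B) (hBc : Cardinal.mk B < κ) :
    DSep (ι → X) ↔ ∃ 𝒰 : Set (Set (ι → X)), (∀ u ∈ 𝒰, IsOpen u ∧ u.Nonempty) ∧
        𝒰.PairwiseDisjoint id ∧ Cardinal.mk 𝒰 = κ.ord.cof := by
  have hkc : Cardinal.mk κ.ord.ToType = κ := by simp
  constructor
  · intro hD
    by_contra hcon
    push Not at hcon
    have hlim : Order.IsSuccLimit κ.ord := Cardinal.isSuccLimit_ord hκ.aleph0_le
    have hreg : (κ.ord.cof).IsRegular := isRegular_cof hlim
    have hno : ∀ 𝒰 : Set (Set (ι → X)), (∀ u ∈ 𝒰, IsOpen u ∧ u.Nonempty) →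
        𝒰.PairwiseDisjoint id → Cardinal.mk 𝒰 < κ.ord.cof := by
      intro 𝒰 h1 h2
      by_contra h3
      push Not at h3
      obtain ⟨𝒱, hV, hVc⟩ := Cardinal.le_mk_iff_exists_subset.1 h3
      exact hcon 𝒱 (fun u hu => h1 u (hV hu)) (h2.subset hV) hVc
    have hinf : Infinite (ι → X) := by
      have : Infinite ι := by
        rw [Cardinal.infinite_iff, hι]; exact hκ0.le
      exact Pi.infinite_of_left
    have hθ : ℵ₀ < κ.ord.cof := by
      obtain ⟨U, hUi, hUo, hUd⟩ := exists_seq_infinite_isOpen_pairwise_disjoint (ι → X)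
      have hinj : Function.Injective U := by
        intro a b hab
        by_contra hne
        have := hUd hne
        rw [Function.onFun, hab, disjoint_self] at this
        have h4 := (hUi b).nonempty
        rw [this] at h4
        exact Set.not_nonempty_empty h4
      have := hno (Set.range U) (by
        rintro _ ⟨n, rfl⟩; exact ⟨hUo n, (hUi n).nonempty⟩) (by
        rintro _ ⟨a, rfl⟩ _ ⟨b, rfl⟩ hab
        exact hUd (fun h => hab (by rw [h])))
      rwa [Cardinal.mk_range_eq _ hinj, Cardinal.mk_nat] at this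
    obtain ⟨e⟩ : Nonempty (ι ≃ κ.ord.ToType) := Cardinal.eq.1 (hι.trans hkc.symm)
    letI : LinearOrder ι := LinearOrder.lift' e e.injective
    have hle : ∀ a b : ι, a ≤ b ↔ e a ≤ e b := fun a b => Iff.rfl
    have hIic : ∀ i : ι, Cardinal.mk (Set.Iic i) < κ := by
      intro i
      have h0 : Cardinal.mk (Set.Iic i) = Cardinal.mk (Set.Iic (e i)) := by
        refine Cardinal.mk_congr (e.subtypeEquiv ?_)
        intro a; rfl
      have h1 : (Set.Iic (e i)) = insert (e i) (Set.Iio (e i)) := by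
        ext x; simp [le_iff_lt_or_eq, or_comm]
      have h2 : Cardinal.mk (Set.Iio (e i)) < κ := mk_Iio_toType_ord_lt (e i)
      rw [h0, h1]
      refine lt_of_le_of_lt (Cardinal.mk_insert_le) ?_
      exact Cardinal.add_lt_of_lt hκ.aleph0_le h2
        (lt_of_lt_of_le Cardinal.one_lt_aleph0 hκ.aleph0_le)
    have hb : ∀ S : Set ι, Cardinal.mk S < κ.ord.cof → ∃ β, ∀ i ∈ S, i ≤ β := by
      intro S hS
      by_contra hcon2
      push Not at hcon2
      have hcof : IsCofinal (e '' S) := by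
        intro x
        obtain ⟨i, hi, hlt⟩ := hcon2 (e.symm x)
        refine ⟨e i, Set.mem_image_of_mem _ hi, ?_⟩
        have h5 : e (e.symm x) < e i := hlt
        rw [Equiv.apply_symm_apply] at h5
        exact h5.le
      have h6 := Order.cof_le hcof
      rw [Ordinal.cof_toType, Cardinal.mk_image_eq e.injective] at h6
      exact absurd hS (not_lt.2 h6)
    have hXc : Cardinal.mk X < κ := by
      refine lt_of_le_of_lt (mk_le_of_piBase B hB) ?_
      exact hκ.two_power_lt (hκ.two_power_lt hBc)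
    obtain ⟨c, hc⟩ := exists_enum (X := X) κ hκ hκ0 hι hIic hXc
    exact not_dsep_power (κ.ord.cof) hθ hreg hb hno c hc hD
  · rintro ⟨𝒰, hU, hd, hc⟩
    exact strat_dsep (stratified_of_cellular κ hκ hκ0 hι B hB hBc 𝒰 hU hd hc)

/-- Cantor cubes -/
theorem cube_dsep (κ : Cardinal.{0}) (hκ : κ.IsStrongLimit) (hκ0 : ℵ₀ < κ)
    (hcof : κ.ord.cof = ℵ₀) (ι : Type) (hι : Cardinal.mk ι = κ) : DSep (ι → Bool) := by
  have hB : IsPiBase (Set.range fun b : Bool => ({b} : Set Bool)) := by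
    refine ⟨?_, ?_⟩
    · rintro _ ⟨b, rfl⟩
      exact ⟨isOpen_discrete _, Set.singleton_nonempty _⟩
    · rintro U _ ⟨b, hb⟩
      exact ⟨_, ⟨b, rfl⟩, by simpa using hb⟩
  have hBc : Cardinal.mk (Set.range fun b : Bool => ({b} : Set Bool)) < κ := by
    refine lt_of_le_of_lt (Cardinal.mk_range_le) ?_
    refine lt_trans ?_ hκ0
    exact Cardinal.lt_aleph0_of_finite Bool
  rw [powers_iff κ hκ hκ0 hι _ hB hBc]
  have hinf : Infinite (ι → Bool) := by
    have : Infinite ι := by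
      rw [Cardinal.infinite_iff, hι]; exact hκ0.le
    exact Pi.infinite_of_left
  obtain ⟨U, hUi, hUo, hUd⟩ := exists_seq_infinite_isOpen_pairwise_disjoint (ι → Bool)
  have hinj : Function.Injective U := by
    intro a b hab
    by_contra hne
    have := hUd hne
    rw [Function.onFun, hab, disjoint_self] at this
    have h4 := (hUi b).nonempty
    rw [this] at h4
    exact Set.not_nonempty_empty h4
  refine ⟨Set.range U, ?_, ?_, ?_⟩
  · rintro _ ⟨n, rfl⟩; exact ⟨hUo n, (hUi n).nonempty⟩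
  · rintro _ ⟨a, rfl⟩ _ ⟨b, rfl⟩ hab
    exact hUd (fun h => hab (by rw [h]))
  · rw [Cardinal.mk_range_eq _ hinj, Cardinal.mk_nat, hcof]

theorem cube_iff (κ : Cardinal.{0}) (hκ : κ.IsStrongLimit) (hκ0 : ℵ₀ < κ)
    (ι : Type) (hι : Cardinal.mk ι = κ) : DSep (ι → Bool) ↔ κ.ord.cof = ℵ₀ := by
  refine ⟨fun h => ?_, fun h => cube_dsep κ hκ hκ0 h ι hι⟩
  have hB : IsPiBase (Set.range fun b : Bool => ({b} : Set Bool)) := by
    refine ⟨?_, ?_⟩
    · rintro _ ⟨b, rfl⟩
      exact ⟨isOpen_discrete _, Set.singleton_nonempty _⟩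
    · rintro U _ ⟨b, hb⟩
      exact ⟨_, ⟨b, rfl⟩, by simpa using hb⟩
  have hBc : Cardinal.mk (Set.range fun b : Bool => ({b} : Set Bool)) < κ := by
    refine lt_of_le_of_lt (Cardinal.mk_range_le) ?_
    refine lt_trans ?_ hκ0
    exact Cardinal.lt_aleph0_of_finite Bool
  rw [powers_iff κ hκ hκ0 hι _ hB hBc] at h
  obtain ⟨𝒰, hU, hd, hc⟩ := h
  have h1 : 𝒰.Countable := cube_cellular_countable 𝒰 hU hd
  have hlim : Order.IsSuccLimit κ.ord := Cardinal.isSuccLimit_ord hκ.aleph0_le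
  have hreg : (κ.ord.cof).IsRegular := isRegular_cof hlim
  refine le_antisymm ?_ hreg.aleph0_le
  rw [← hc]
  exact Cardinal.le_aleph0_iff_set_countable.2 h1

/-- the hypothesis of the conditional answer fails -/
theorem hypothesis_fails : ¬ ∀ (X : Type) [TopologicalSpace X] [CompactSpace X] [T2Space X],
    (DSep X ↔ SigmaDisjointPiBase X) := by
  intro h
  have hκ : (ℶ_ (Ordinal.omega0 : Ordinal.{0})).IsStrongLimit :=
    isStrongLimit_beth.2 Ordinal.isSuccLimit_omega0.isSuccPrelimit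
  have hκ0 : ℵ₀ < ℶ_ (Ordinal.omega0 : Ordinal.{0}) := by
    rw [← beth_zero]
    exact beth_strictMono Ordinal.omega0_pos
  have hcof : (ℶ_ (Ordinal.omega0 : Ordinal.{0})).ord.cof = ℵ₀ := by
    have h1 := Ordinal.cof_map_of_isNormal (isNormal_ord.comp isNormal_beth)
      Ordinal.isSuccLimit_omega0
    rw [Function.comp_apply, Ordinal.cof_omega0] at h1
    exact h1
  have h1 := cube_dsep _ hκ hκ0 hcof (ℶ_ (Ordinal.omega0 : Ordinal.{0})).ord.ToType (by simp)
  rw [h] at h1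
  exact cube_no_sigma (by simpa using hκ0) h1

end Pool.Agent.Work.MP_b4417b_gt
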