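import Pool.Agent.Work.MP_b4417b_gt.Defs

set_option autoImplicit false

/-!
# Dense subsets of big powers are big; cardinality of a Hausdorff space with a small pi-base

PROOF of `dense_large`.  Choose disjoint nonempty open sets `O₀ ∋ x₀`, `O₁ ∋ x₁` in `X`, and a nonempty
basic box `b ⊆ U` with finite support `s`.  Suppose `#(D ∩ U) ≤ lam`.  The map
`{i // i ∉ s} → Set (D ∩ U)`, `i ↦ {y | y i ∈ O₁}` cannot be injective since the target has at most
`2 ^ lam < #ι = #{i // i ∉ s}` elements.  So there are `i ≠ j` outside `s` with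
`y i ∈ O₁ ↔ y j ∈ O₁` for all `y ∈ D ∩ U`.  But `b ∩ {y | y i ∈ O₁} ∩ {y | y j ∈ O₀}` is a nonempty open
subset of `U`, so it contains a point of `D`: contradiction.

PROOF of `mk_le_of_piBase`.  The map `X → Set (Set B)`, `x ↦ {{b | b ⊆ U} | U open, x ∈ U}` is
injective: if `x ≠ y`, take disjoint open `U ∋ x`, `V ∋ y`; were the images equal there would be an open
`V' ∋ y` with `{b | b ⊆ V'} = {b | b ⊆ U}`; a member `b` of the pi-base inside `V' ∩ V` is contained in
`U` and in `V`, so it is empty, contradiction.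
-/

namespace Pool.Agent.Work.MP_b4417b_gt

open Cardinal Set

theorem dense_large {X ι : Type} [TopologicalSpace X] [T2Space X] [Nontrivial X]
    (lam : Cardinal.{0}) (h0 : ℵ₀ ≤ lam) (h : 2 ^ lam < Cardinal.mk ι) (D : Set (ι → X))
    (hD : Dense D) (U : Set (ι → X)) (hU : IsOpen U) (hne : U.Nonempty) :
    lam < Cardinal.mk (D ∩ U : Set (ι → X)) := by
  classical
  by_contra hcon
  rw [not_lt] at hcon
  obtain ⟨x0, x1, hx⟩ := exists_pair_ne X
  obtain ⟨O0, O1, hO0, hO1, h00, h11, hdis⟩ := t2_separation hx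
  obtain ⟨f, hf⟩ := hne
  obtain ⟨s, u, hu, hsub⟩ := isOpen_pi_iff.1 hU f hf
  have hnot : ¬ Function.Injective (fun i : {i // i ∉ s} => ({y | y.1 i.1 ∈ O1} : Set (D ∩ U : Set (ι → X)))) := by
    intro hinj
    have h1 : Cardinal.mk {i // i ∉ s} ≤ 2 ^ lam := by
      refine (Cardinal.mk_le_of_injective hinj).trans ?_
      rw [Cardinal.mk_set]
      exact Cardinal.power_le_power_left two_ne_zero hcon
    have h2 : Cardinal.mk ι ≤ 2 ^ lam := by
      have e1 := Cardinal.mk_sum_compl (s : Set ι)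
      have e2 : ℵ₀ ≤ (2 : Cardinal.{0}) ^ lam := h0.trans (Cardinal.cantor lam).le
      have e3 : Cardinal.mk (s : Set ι) ≤ 2 ^ lam :=
        ((Cardinal.lt_aleph0_of_finite (s : Set ι)).le).trans e2
      rw [← e1]
      exact (add_le_add e3 h1).trans (Cardinal.add_eq_self e2).le
    exact absurd h (not_lt.2 h2)
  rw [Function.Injective] at hnot
  push Not at hnot
  obtain ⟨i, j, hij, hne⟩ := hnot
  have hij' : i.1 ≠ j.1 := fun e => hne (Subtype.ext e)
  have hk : ∀ a ∈ s, a ≠ i.1 ∧ a ≠ j.1 := fun a ha =>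
    ⟨fun e => i.2 (e ▸ ha), fun e => j.2 (e ▸ ha)⟩
  let u' : ι → Set X := fun a => if a = i.1 then O1 else if a = j.1 then O0 else u a
  have hopen : IsOpen ((↑(insert i.1 (insert j.1 s)) : Set ι).pi u') := by
    refine isOpen_set_pi (Finset.finite_toSet _) ?_
    intro a ha
    simp only [u']
    split_ifs with e1 e2
    · exact hO1
    · exact hO0
    · have : a ∈ s := by simpa [e1, e2] using ha
      exact (hu a this).1
  have hnon : ((↑(insert i.1 (insert j.1 s)) : Set ι).pi u').Nonempty := by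
    refine ⟨fun a => if a = i.1 then x1 else if a = j.1 then x0 else f a, ?_⟩
    intro a ha
    simp only [u']
    split_ifs with e1 e2
    · exact h11
    · exact h00
    · have : a ∈ s := by simpa [e1, e2] using ha
      exact (hu a this).2
  obtain ⟨y, hy, hyD⟩ := hD.inter_open_nonempty _ hopen hnon
  have hyU : y ∈ U := by
    apply hsub
    intro a ha
    have h3 := hy a (by simp; right; right; exact ha)
    have h4 := hk a ha
    simpa [u', h4.1, h4.2] using h3
  have hyi : y i.1 ∈ O1 := by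
    have h3 := hy i.1 (by simp)
    simpa [u'] using h3
  have hyj : y j.1 ∈ O0 := by
    have h3 := hy j.1 (by simp)
    simpa [u', hij'.symm] using h3
  have h5 : (⟨y, hyD, hyU⟩ : (D ∩ U : Set (ι → X))) ∈
      ({y | y.1 i.1 ∈ O1} : Set (D ∩ U : Set (ι → X))) := hyi
  have h6 : (⟨y, hyD, hyU⟩ : (D ∩ U : Set (ι → X))) ∈
      ({y | y.1 j.1 ∈ O1} : Set (D ∩ U : Set (ι → X))) := by
    have h7 : ({y | y.1 i.1 ∈ O1} : Set (D ∩ U : Set (ι → X))) = {y | y.1 j.1 ∈ O1} := hij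
    rw [← h7]
    exact h5
  exact hdis.le_bot ⟨hyj, h6⟩

theorem mk_le_of_piBase {X : Type} [TopologicalSpace X] [T2Space X] (B : Set (Set X))
    (hB : IsPiBase B) : Cardinal.mk X ≤ 2 ^ ((2 : Cardinal.{0}) ^ Cardinal.mk B) := by
  classical
  rw [← Cardinal.mk_set, ← Cardinal.mk_set]
  refine Cardinal.mk_le_of_injective
    (f := fun x : X => ({T | ∃ U : Set X, IsOpen U ∧ x ∈ U ∧ T = {b : B | b.1 ⊆ U}} : Set (Set B))) ?_
  intro x y hxy
  by_contra hne
  obtain ⟨U, V, hU, hV, hxU, hyV, hdis⟩ := t2_separation hne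
  have h1 : ({b : B | b.1 ⊆ U} : Set B) ∈
      ({T | ∃ U : Set X, IsOpen U ∧ x ∈ U ∧ T = {b : B | b.1 ⊆ U}} : Set (Set B)) :=
    ⟨U, hU, hxU, rfl⟩
  have hxy' : ({T | ∃ U : Set X, IsOpen U ∧ x ∈ U ∧ T = {b : B | b.1 ⊆ U}} : Set (Set B)) =
    {T | ∃ U : Set X, IsOpen U ∧ y ∈ U ∧ T = {b : B | b.1 ⊆ U}} := hxy
  rw [hxy'] at h1
  obtain ⟨V', hV', hyV', he⟩ := h1
  obtain ⟨b, hb, hbs⟩ := hB.2 (V' ∩ V) (hV'.inter hV) ⟨y, hyV', hyV⟩
  have h2 : (⟨b, hb⟩ : B) ∈ ({b : B | b.1 ⊆ V'} : Set B) := hbs.trans inter_subset_left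
  rw [← he] at h2
  obtain ⟨z, hz⟩ := (hB.1 b hb).2
  exact hdis.le_bot ⟨h2 hz, (hbs hz).2⟩

end Pool.Agent.Work.MP_b4417b_gt
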