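import Pool.Agent.Work.MP_b4417b_gt.Basic
import Pool.Agent.Work.MP_b4417b_gt.ErdosRado

set_option autoImplicit false

/-!
# Selection of a discrete set from many large sets in a Hausdorff space

PROOF of `selection` (uses `erdos_rado_three` and `exists_strictMono_of_lt`).  Let
`Λ := (Order.succ (gap μ)).ord.toType`; for each `i` choose an injection `y i : Λ → Z` into `E i`.
For `i` and `α < β` in `Λ` choose disjoint open sets `U i α β ∋ y i α`, `V i α β ∋ y i β`.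
Colour a triple `α < β < γ` with the function `I × I → Bool × Bool × Bool × Bool` sending `(i, j)` to
the truth values of `y j γ ∈ U i α β`, `y j γ ∈ V i α β`, `y j α ∈ U i β γ`, `y j α ∈ V i β γ`.
The number of colours is at most `2 ^ μ`.  Let `H` be homogeneous with `μ < #H`.  Well-order `I`
(`WellOrderingRel` or transport from an ordinal) and let `f : I ×ₗ Fin 3 → H` be strictly monotone
(`#(I × Fin 3) ≤ μ < #H`).  Put `h⁻ i = f (i, 0)`, `h i = f (i, 1)`, `h⁺ i = f (i, 2)`,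
`x i := y i (h i)`, `W i := U i (h i) (h⁺ i) ∩ V i (h⁻ i) (h i)`.  Let `j ≠ i`.  If `i < j` then
`h j > h⁺ i`; by homogeneity the truth value of `y j γ ∈ U i α β` for `α < β < γ` in `H` is a constant
`u`, that of `y j γ ∈ V i α β` is a constant `v`, and not both are true since `U i α β` and `V i α β`
are disjoint.  If `u` is false then `x j ∉ U i (h i) (h⁺ i)`, if `v` is false then
`x j ∉ V i (h⁻ i) (h i)`; so `x j ∉ W i`.  If `j < i` then `h j < h⁻ i` and the same argument with the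
last two truth values works.

PROOF of `selectable_of_small`: if `P` is empty take `F = ∅`; otherwise apply `selection` with
`I := P` and `E p := D ∩ p` to get `F := range x`.
-/

namespace Pool.Agent.Work.MP_b4417b_gt

open Cardinal Set

theorem selection {Z I : Type} [TopologicalSpace Z] [T2Space Z] (μ : Cardinal.{0}) (hμ : ℵ₀ ≤ μ)
    (hI : Cardinal.mk I ≤ μ) (E : I → Set Z) (hE : ∀ i, gap μ < Cardinal.mk (E i)) :
    ∃ (x : I → Z) (W : I → Set Z), (∀ i, x i ∈ E i ∧ IsOpen (W i) ∧ x i ∈ W i) ∧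
      ∀ i j, i ≠ j → x j ∉ W i := by
  classical
  obtain ⟨Λ, hΛo, hΛw, hΛc⟩ : ∃ (Λ : Type) (_ : LinearOrder Λ) (_ : WellFoundedLT Λ),
      Cardinal.mk Λ = Order.succ (gap μ) :=
    ⟨(Order.succ (gap μ)).ord.ToType, inferInstance, inferInstance, Cardinal.mk_ord_toType _⟩
  have hy : ∀ i, Nonempty (Λ ↪ E i) := by
    intro i
    have : Cardinal.mk Λ ≤ Cardinal.mk (E i) := by
      rw [hΛc]; exact Order.succ_le_of_lt (hE i)
    exact this
  let y : I → Λ → Z := fun i α => ((hy i).some α : Z)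
  have yE : ∀ i α, y i α ∈ E i := fun i α => ((hy i).some α).2
  have yinj : ∀ i α β, α ≠ β → y i α ≠ y i β := by
    intro i α β hab h
    exact hab ((hy i).some.injective (Subtype.ext h))
  have hsep : ∀ i α β, ∃ U V : Set Z, α ≠ β → IsOpen U ∧ IsOpen V ∧ y i α ∈ U ∧ y i β ∈ V ∧
      Disjoint U V := by
    intro i α β
    by_cases h : α = β
    · exact ⟨∅, ∅, fun h' => absurd h h'⟩
    · obtain ⟨U, V, h1, h2, h3, h4, h5⟩ := t2_separation (yinj i α β h)
      exact ⟨U, V, fun _ => ⟨h1, h2, h3, h4, h5⟩⟩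
  choose U V hUV using hsep
  let c : Λ → Λ → Λ → Set (I × I × Fin 4) := fun α β γ => {t |
    (t.2.2 = 0 ∧ y t.2.1 γ ∈ U t.1 α β) ∨ (t.2.2 = 1 ∧ y t.2.1 γ ∈ V t.1 α β) ∨
    (t.2.2 = 2 ∧ y t.2.1 α ∈ U t.1 β γ) ∨ (t.2.2 = 3 ∧ y t.2.1 α ∈ V t.1 β γ)}
  have c0 : ∀ α β γ i j, (i, j, (0 : Fin 4)) ∈ c α β γ ↔ y j γ ∈ U i α β := by
    intro α β γ i j; simp [c]
  have c1 : ∀ α β γ i j, (i, j, (1 : Fin 4)) ∈ c α β γ ↔ y j γ ∈ V i α β := by
    intro α β γ i j; simp [c]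
  have c2 : ∀ α β γ i j, (i, j, (2 : Fin 4)) ∈ c α β γ ↔ y j α ∈ U i β γ := by
    intro α β γ i j; simp [c]
  have c3 : ∀ α β γ i j, (i, j, (3 : Fin 4)) ∈ c α β γ ↔ y j α ∈ V i β γ := by
    intro α β γ i j; simp [c]
  have hCc : Cardinal.mk (Set (I × I × Fin 4)) ≤ 2 ^ μ := by
    rw [Cardinal.mk_set]
    refine Cardinal.power_le_power_left two_ne_zero ?_
    rw [Cardinal.mk_prod, Cardinal.mk_prod]
    simp only [Cardinal.lift_id]
    calc Cardinal.mk I * (Cardinal.mk I * Cardinal.mk (Fin 4)) ≤ μ * (μ * μ) := by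
          have : Cardinal.mk (Fin 4) ≤ μ := (Cardinal.mk_fin 4 ▸ (Cardinal.nat_lt_aleph0 4).le).trans hμ
          gcongr
      _ = μ := by rw [Cardinal.mul_eq_self hμ, Cardinal.mul_eq_self hμ]
  obtain ⟨H, hH, col, hcol⟩ := erdos_rado_three μ hμ hCc (by rw [hΛc]; exact Order.lt_succ _) c
  letI : LinearOrder I := linearOrderOfSTO (WellOrderingRel (α := I))
  haveI : WellFoundedLT I := ⟨(WellOrderingRel.isWellOrder (α := I)).wf⟩
  have hcard : Cardinal.mk (I ×ₗ Fin 3) < Cardinal.mk H := by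
    refine lt_of_le_of_lt ?_ hH
    have : Cardinal.mk (I ×ₗ Fin 3) = Cardinal.mk (I × Fin 3) := rfl
    rw [this, Cardinal.mk_prod]
    simp only [Cardinal.lift_id]
    calc Cardinal.mk I * Cardinal.mk (Fin 3) ≤ μ * μ := by
          have : Cardinal.mk (Fin 3) ≤ μ := (Cardinal.mk_fin 3 ▸ (Cardinal.nat_lt_aleph0 3).le).trans hμ
          gcongr
      _ = μ := Cardinal.mul_eq_self hμ
  obtain ⟨f, hf⟩ := exists_strictMono_of_lt hcard
  have lt1 : ∀ (i : I) (a b : Fin 3), a < b → f (toLex (i, a)) < f (toLex (i, b)) := by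
    intro i a b hab
    exact hf (Prod.Lex.toLex_lt_toLex.mpr (Or.inr ⟨rfl, hab⟩))
  have lt2 : ∀ (i j : I) (a b : Fin 3), i < j → f (toLex (i, a)) < f (toLex (j, b)) := by
    intro i j a b hij
    exact hf (Prod.Lex.toLex_lt_toLex.mpr (Or.inl hij))
  let h0 : I → Λ := fun i => (f (toLex (i, 0)) : Λ)
  let h1 : I → Λ := fun i => (f (toLex (i, 1)) : Λ)
  let h2 : I → Λ := fun i => (f (toLex (i, 2)) : Λ)
  have l01 : ∀ i, h0 i < h1 i := fun i => lt1 i 0 1 (by decide)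
  have l12 : ∀ i, h1 i < h2 i := fun i => lt1 i 1 2 (by decide)
  have m0 : ∀ i, h0 i ∈ H := fun i => (f (toLex (i, 0))).2
  have m1 : ∀ i, h1 i ∈ H := fun i => (f (toLex (i, 1))).2
  have m2 : ∀ i, h2 i ∈ H := fun i => (f (toLex (i, 2))).2
  refine ⟨fun i => y i (h1 i), fun i => U i (h1 i) (h2 i) ∩ V i (h0 i) (h1 i), fun i => ?_,
    fun i j hij => ?_⟩
  · have a1 := hUV i (h1 i) (h2 i) (l12 i).ne
    have a2 := hUV i (h0 i) (h1 i) (l01 i).ne
    exact ⟨yE _ _, a1.1.inter a2.2.1, a1.2.2.1, a2.2.2.2.1⟩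
  · rintro ⟨b1, b2⟩
    have dis := (hUV i (h0 i) (h1 i) (l01 i).ne).2.2.2.2
    rcases lt_or_gt_of_ne hij with hlt | hgt
    · have k1 : h2 i < h1 j := lt2 i j 2 1 hlt
      have e1 : (i, j, (0 : Fin 4)) ∈ col := by
        rw [← hcol _ (m1 i) _ (m2 i) _ (m1 j) (l12 i) k1, c0]
        exact b1
      rw [← hcol _ (m0 i) _ (m1 i) _ (m1 j) (l01 i) ((l12 i).trans k1), c0] at e1
      exact Set.disjoint_left.mp dis e1 b2
    · have k1 : h1 j < h0 i := lt2 j i 1 0 hgt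
      have e1 : (i, j, (2 : Fin 4)) ∈ col := by
        rw [← hcol _ (m1 j) _ (m1 i) _ (m2 i) (k1.trans (l01 i)) (l12 i), c2]
        exact b1
      rw [← hcol _ (m1 j) _ (m0 i) _ (m1 i) k1 (l01 i), c2] at e1
      exact Set.disjoint_left.mp dis e1 b2

theorem selectable_of_small {Z : Type} [TopologicalSpace Z] [T2Space Z] (μ : Cardinal.{0})
    (hμ : ℵ₀ ≤ μ) (P : Set (Set Z)) (hP : Cardinal.mk P ≤ μ)
    (h : ∀ p ∈ P, ∀ D : Set Z, Dense D → gap μ < Cardinal.mk (D ∩ p : Set Z)) :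
    Selectable P := by
  intro D hD
  obtain ⟨x, W, hx, hW⟩ := selection (I := P) μ hμ hP (fun p => D ∩ p.1) (fun p => h p.1 p.2 D hD)
  refine ⟨Set.range x, ?_, ?_, ?_⟩
  · rintro _ ⟨p, rfl⟩
    exact (hx p).1.1
  · rintro _ ⟨p, rfl⟩
    refine ⟨W p, (hx p).2.1, (hx p).2.2, ?_⟩
    rintro _ ⟨p', rfl⟩ hp'
    by_cases hpp : p = p'
    · rw [hpp]
    · exact absurd hp' (hW p p' hpp)
  · intro p hp
    exact ⟨x ⟨p, hp⟩, ⟨_, rfl⟩, (hx ⟨p, hp⟩).1.2⟩

end Pool.Agent.Work.MP_b4417b_gt
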