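import Pool.Agent.Work.MP_b4417b_gt.Selection

set_option autoImplicit false

/-!
# Stratified spaces

`strat_dsep`: each `P n a` is selectable (`selectable_of_small` with `μ = max ℵ₀ #(P n a)`, or trivial
if it is a subsingleton consisting of a nonempty open set: take one point of `D` in it), so
`⋃ a ∈ A n, P n a` is selectable by `selectable_biUnion`; conclude with `dsep_of_selectable`.

`strat_of_sigma`: given the sigma-disjoint pi-base `B`, put `A := B`, `P n a := {a}`.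

`strat_prod`: enumerate pairs `(m, k)` of natural numbers by `Nat.unpair`; put
`A n := {a ×ˢ b | a ∈ A₁ m, b ∈ A₂ k}` (one may discard empty `a`, `b`) and
`P n c := {p ×ˢ q | p ∈ P₁ m a, q ∈ P₂ k b, c = a ×ˢ b, a ∈ A₁ m, b ∈ A₂ k}`.  For nonempty `a`, `b` the
pair `(a, b)` is determined by `a ×ˢ b`.  Gap condition: `#(P n c) ≤ #(P₁ m a) * #(P₂ k b)`.  If both
factors are subsingletons so is the product family.  If `D` is dense in `X × Y` and `p`, `q` are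
nonempty open then the projection to `X` of `D ∩ (univ ×ˢ q)` is dense in `X`, so its intersection
with `p` has more than `gap (max ℵ₀ #(P₁ m a))` elements when the gap condition holds for `a`, and this
is at most `#(D ∩ (p ×ˢ q))`; similarly for `Y`.  As
`max ℵ₀ (#P₁ * #P₂) ≤ max (max ℵ₀ #P₁) (max ℵ₀ #P₂)` (with a subsingleton factor of cardinality at
most one), and `gap` is monotone, the condition follows.
-/

namespace Pool.Agent.Work.MP_b4417b_gt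

open Cardinal Set

theorem strat_dsep {X : Type} [TopologicalSpace X] [T2Space X] (h : Stratified X) : DSep X := by
  obtain ⟨A, P, h1, h2, h3, h4, h5⟩ := h
  apply dsep_of_selectable (fun n => ⋃ a ∈ A n, P n a) _ h5
  intro n
  apply selectable_biUnion (A n) (h1 n) (h2 n) (P n) (h3 n)
  intro a ha
  have hmem : ∀ p ∈ P n a, IsOpen p ∧ p.Nonempty := fun p hp =>
    h5.1 p (mem_iUnion.2 ⟨n, mem_iUnion₂.2 ⟨a, ha, hp⟩⟩)
  rcases h4 n a ha with h | h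
  · exact selectable_of_disjoint _ hmem (h.pairwise _)
  · exact selectable_of_small (max ℵ₀ (Cardinal.mk (P n a))) (le_max_left _ _) _ (le_max_right _ _) h

theorem strat_of_sigma {X : Type} [TopologicalSpace X] (h : SigmaDisjointPiBase X) :
    Stratified X := by
  obtain ⟨B, hd, hB⟩ := h
  refine ⟨B, fun _ a => {a}, fun n a ha => (hB.1 a (mem_iUnion.2 ⟨n, ha⟩)).1, hd,
    fun n a _ p hp => ?_, fun n a _ => Or.inl subsingleton_singleton, ?_⟩
  · rw [mem_singleton_iff.1 hp]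
  · have h1 : (⋃ n, ⋃ a ∈ B n, ({a} : Set (Set X))) = ⋃ n, B n := by
      ext b
      simp
    rw [h1]
    exact hB

private theorem gap_mono {a b : Cardinal.{0}} (h : a ≤ b) : gap a ≤ gap b := by
  unfold gap
  exact Cardinal.power_le_power_left two_ne_zero (Cardinal.power_le_power_left two_ne_zero
    (Cardinal.power_le_power_left two_ne_zero h))

/-- the first projection of a dense set -/
private theorem proj_fst {X Y : Type} [TopologicalSpace X] [TopologicalSpace Y] {κ : Cardinal.{0}}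
    {p : Set X} {q : Set Y} (hq : IsOpen q) (hqn : q.Nonempty)
    (h : ∀ D : Set X, Dense D → κ < Cardinal.mk (D ∩ p : Set X)) (D : Set (X × Y))
    (hD : Dense D) : κ < Cardinal.mk (D ∩ (p ×ˢ q) : Set (X × Y)) := by
  have h1 : Dense (Prod.fst '' (D ∩ (Set.univ ×ˢ q))) := by
    rw [dense_iff_inter_open]
    intro U hU hUn
    obtain ⟨⟨x, y⟩, hxy, hxyD⟩ := hD.inter_open_nonempty (U ×ˢ q) (hU.prod hq) (hUn.prod hqn)
    exact ⟨x, hxy.1, ⟨(x, y), ⟨hxyD, mem_univ _, hxy.2⟩, rfl⟩⟩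
  refine (h _ h1).trans_le ?_
  have h2 : Prod.fst '' (D ∩ (Set.univ ×ˢ q)) ∩ p ⊆ Prod.fst '' (D ∩ (p ×ˢ q)) := by
    rintro _ ⟨⟨⟨x, y⟩, ⟨hD', _, hy⟩, rfl⟩, hx⟩
    exact ⟨(x, y), ⟨hD', hx, hy⟩, rfl⟩
  exact (Cardinal.mk_le_mk_of_subset h2).trans Cardinal.mk_image_le

/-- the second projection of a dense set -/
private theorem proj_snd {X Y : Type} [TopologicalSpace X] [TopologicalSpace Y] {κ : Cardinal.{0}}
    {p : Set X} {q : Set Y} (hp : IsOpen p) (hpn : p.Nonempty)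
    (h : ∀ D : Set Y, Dense D → κ < Cardinal.mk (D ∩ q : Set Y)) (D : Set (X × Y))
    (hD : Dense D) : κ < Cardinal.mk (D ∩ (p ×ˢ q) : Set (X × Y)) := by
  have h1 : Dense (Prod.snd '' (D ∩ (p ×ˢ Set.univ))) := by
    rw [dense_iff_inter_open]
    intro U hU hUn
    obtain ⟨⟨x, y⟩, hxy, hxyD⟩ := hD.inter_open_nonempty (p ×ˢ U) (hp.prod hU) (hpn.prod hUn)
    exact ⟨y, hxy.2, ⟨(x, y), ⟨hxyD, hxy.1, mem_univ _⟩, rfl⟩⟩
  refine (h _ h1).trans_le ?_
  have h2 : Prod.snd '' (D ∩ (p ×ˢ Set.univ)) ∩ q ⊆ Prod.snd '' (D ∩ (p ×ˢ q)) := by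
    rintro _ ⟨⟨⟨x, y⟩, ⟨hD', hx, _⟩, rfl⟩, hy⟩
    exact ⟨(x, y), ⟨hD', hx, hy⟩, rfl⟩
  exact (Cardinal.mk_le_mk_of_subset h2).trans Cardinal.mk_image_le

private theorem card_aux {a b c : Cardinal.{0}} (hc : c ≤ a * b) (h : b ≤ max ℵ₀ a) :
    max ℵ₀ c ≤ max ℵ₀ a := by
  apply max_le (le_max_left _ _)
  refine hc.trans ?_
  have h1 : a * b ≤ max ℵ₀ a * max ℵ₀ a := mul_le_mul' (le_max_right _ _) h
  rwa [Cardinal.mul_eq_self (le_max_left _ _)] at h1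

theorem strat_prod {X Y : Type} [TopologicalSpace X] [TopologicalSpace Y]
    (hX : Stratified X) (hY : Stratified Y) : Stratified (X × Y) := by
  obtain ⟨A₁, P₁, a1, a2, a3, a4, a5⟩ := hX
  obtain ⟨A₂, P₂, b1, b2, b3, b4, b5⟩ := hY
  have hm1 : ∀ m, ∀ a ∈ A₁ m, ∀ p ∈ P₁ m a, IsOpen p ∧ p.Nonempty := fun m a ha p hp =>
    a5.1 p (mem_iUnion.2 ⟨m, mem_iUnion₂.2 ⟨a, ha, hp⟩⟩)
  have hm2 : ∀ m, ∀ a ∈ A₂ m, ∀ p ∈ P₂ m a, IsOpen p ∧ p.Nonempty := fun m a ha p hp =>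
    b5.1 p (mem_iUnion.2 ⟨m, mem_iUnion₂.2 ⟨a, ha, hp⟩⟩)
  refine ⟨fun n => {c | ∃ a ∈ A₁ n.unpair.1, ∃ b ∈ A₂ n.unpair.2, a.Nonempty ∧ b.Nonempty ∧
    c = a ×ˢ b}, fun n c => {r | ∃ a ∈ A₁ n.unpair.1, ∃ b ∈ A₂ n.unpair.2, c = a ×ˢ b ∧
      ∃ p ∈ P₁ n.unpair.1 a, ∃ q ∈ P₂ n.unpair.2 b, r = p ×ˢ q}, ?_, ?_, ?_, ?_, ?_⟩
  · rintro n c ⟨a, ha, b, hb, _, _, rfl⟩
    exact (a1 _ a ha).prod (b1 _ b hb)
  · rintro n c ⟨a, ha, b, hb, _, _, rfl⟩ c' ⟨a', ha', b', hb', _, _, rfl⟩ hne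
    simp only [Function.onFun, id]
    rw [Set.disjoint_prod]
    by_cases haa : a = a'
    · right
      exact b2 _ hb hb' (fun hbb => hne (by rw [haa, hbb]))
    · left
      exact a2 _ ha ha' haa
  · rintro n c _ r ⟨a, ha, b, hb, rfl, p, hp, q, hq, rfl⟩
    exact prod_mono (a3 _ a ha p hp) (b3 _ b hb q hq)
  · rintro n c ⟨a, ha, b, hb, han, hbn, rfl⟩
    -- the family attached to `a ×ˢ b`
    have hfam : {r | ∃ a' ∈ A₁ n.unpair.1, ∃ b' ∈ A₂ n.unpair.2, a ×ˢ b = a' ×ˢ b' ∧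
        ∃ p ∈ P₁ n.unpair.1 a', ∃ q ∈ P₂ n.unpair.2 b', r = p ×ˢ q} =
        image2 (fun p q => p ×ˢ q) (P₁ n.unpair.1 a) (P₂ n.unpair.2 b) := by
      ext r
      constructor
      · rintro ⟨a', _, b', _, he, p, hp, q, hq, rfl⟩
        obtain ⟨rfl, rfl⟩ := (prod_eq_prod_iff_of_nonempty (han.prod hbn)).1 he
        exact ⟨p, hp, q, hq, rfl⟩
      · rintro ⟨p, hp, q, hq, rfl⟩
        exact ⟨a, ha, b, hb, rfl, p, hp, q, hq, rfl⟩
    beta_reduce
    rw [hfam]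
    have hcard : Cardinal.mk (image2 (fun p q => p ×ˢ q) (P₁ n.unpair.1 a) (P₂ n.unpair.2 b)) ≤
        Cardinal.mk (P₁ n.unpair.1 a) * Cardinal.mk (P₂ n.unpair.2 b) := by
      rw [← image_uncurry_prod]
      refine Cardinal.mk_image_le.trans ?_
      rw [Cardinal.mk_setProd]
    have hsub : ∀ {Z : Type} (P : Set (Set Z)), P.Subsingleton → Cardinal.mk P ≤ 1 := by
      intro Z P hP
      rw [Cardinal.le_one_iff_subsingleton]
      exact subsingleton_coe P |>.2 hP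
    have first : (∀ p ∈ P₁ n.unpair.1 a, ∀ D : Set X, Dense D →
        gap (max ℵ₀ (Cardinal.mk (P₁ n.unpair.1 a))) < Cardinal.mk (D ∩ p : Set X)) →
        Cardinal.mk (P₂ n.unpair.2 b) ≤ max ℵ₀ (Cardinal.mk (P₁ n.unpair.1 a)) →
        ∀ r ∈ image2 (fun p q => p ×ˢ q) (P₁ n.unpair.1 a) (P₂ n.unpair.2 b),
          ∀ D : Set (X × Y), Dense D →
          gap (max ℵ₀ (Cardinal.mk (image2 (fun p q => p ×ˢ q) (P₁ n.unpair.1 a)
            (P₂ n.unpair.2 b)))) < Cardinal.mk (D ∩ r : Set (X × Y)) := by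
      rintro hg hle _ ⟨p, hp, q, hq, rfl⟩ D hD
      obtain ⟨hqo, hqn⟩ := hm2 _ b hb q hq
      exact (gap_mono (card_aux hcard hle)).trans_lt (proj_fst hqo hqn (hg p hp) D hD)
    have second : (∀ q ∈ P₂ n.unpair.2 b, ∀ D : Set Y, Dense D →
        gap (max ℵ₀ (Cardinal.mk (P₂ n.unpair.2 b))) < Cardinal.mk (D ∩ q : Set Y)) →
        Cardinal.mk (P₁ n.unpair.1 a) ≤ max ℵ₀ (Cardinal.mk (P₂ n.unpair.2 b)) →
        ∀ r ∈ image2 (fun p q => p ×ˢ q) (P₁ n.unpair.1 a) (P₂ n.unpair.2 b),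
          ∀ D : Set (X × Y), Dense D →
          gap (max ℵ₀ (Cardinal.mk (image2 (fun p q => p ×ˢ q) (P₁ n.unpair.1 a)
            (P₂ n.unpair.2 b)))) < Cardinal.mk (D ∩ r : Set (X × Y)) := by
      rintro hg hle _ ⟨p, hp, q, hq, rfl⟩ D hD
      obtain ⟨hpo, hpn⟩ := hm1 _ a ha p hp
      have hcard' := hcard.trans_eq (mul_comm _ _)
      exact (gap_mono (card_aux hcard' hle)).trans_lt (proj_snd hpo hpn (hg q hq) D hD)
    rcases a4 _ a ha with h1 | h1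
    · rcases b4 _ b hb with h2 | h2
      · left
        rintro _ ⟨p, hp, q, hq, rfl⟩ _ ⟨p', hp', q', hq', rfl⟩
        simp only
        rw [h1 hp hp', h2 hq hq']
      · right
        exact second h2 ((hsub _ h1).trans (Cardinal.one_le_aleph0.trans (le_max_left _ _)))
    · right
      rcases b4 _ b hb with h2 | h2
      · exact first h1 ((hsub _ h2).trans (Cardinal.one_le_aleph0.trans (le_max_left _ _)))
      · rcases le_total (Cardinal.mk (P₂ n.unpair.2 b)) (Cardinal.mk (P₁ n.unpair.1 a)) with h3 | h3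
        · exact first h1 (h3.trans (le_max_right _ _))
        · exact second h2 (h3.trans (le_max_right _ _))
  · constructor
    · intro r hr
      obtain ⟨n, hn⟩ := mem_iUnion.1 hr
      obtain ⟨c, _, a, ha, b, hb, _, p, hp, q, hq, rfl⟩ := mem_iUnion₂.1 hn
      obtain ⟨hpo, hpn⟩ := hm1 _ a ha p hp
      obtain ⟨hqo, hqn⟩ := hm2 _ b hb q hq
      exact ⟨hpo.prod hqo, hpn.prod hqn⟩
    · rintro W hW ⟨⟨x₀, y₀⟩, hxy⟩
      obtain ⟨U, V, hU, hV, hxU, hyV, hUV⟩ := isOpen_prod_iff.1 hW x₀ y₀ hxy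
      obtain ⟨p, hp, hpU⟩ := a5.2 U hU ⟨x₀, hxU⟩
      obtain ⟨q, hq, hqV⟩ := b5.2 V hV ⟨y₀, hyV⟩
      obtain ⟨m, hm⟩ := mem_iUnion.1 hp
      obtain ⟨a, ha, hpa⟩ := mem_iUnion₂.1 hm
      obtain ⟨k, hk⟩ := mem_iUnion.1 hq
      obtain ⟨b, hb, hqb⟩ := mem_iUnion₂.1 hk
      have han : a.Nonempty := (hm1 m a ha p hpa).2.mono (a3 m a ha p hpa)
      have hbn : b.Nonempty := (hm2 k b hb q hqb).2.mono (b3 k b hb q hqb)
      refine ⟨p ×ˢ q, mem_iUnion.2 ⟨Nat.pair m k, mem_iUnion₂.2 ⟨a ×ˢ b, ?_, ?_⟩⟩,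
        (prod_mono hpU hqV).trans hUV⟩
      · beta_reduce
        rw [Nat.unpair_pair]
        exact ⟨a, ha, b, hb, han, hbn, rfl⟩
      · beta_reduce
        rw [Nat.unpair_pair]
        exact ⟨a, ha, b, hb, rfl, p, hpa, q, hqb, rfl⟩

end Pool.Agent.Work.MP_b4417b_gt
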