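import Pool.Agent.Work.MP_b4417b_gt.Basic

set_option autoImplicit false

/-!
# Spaces with a tree pi-base

PROOF of `exists_good`.  The relation `s ⊃ t` (strict superset) is well founded on `T` (third clause of
`IsTreePiBase`: the members above a given one are well ordered by reverse inclusion).  Define by
well-founded recursion: `t ∈ T` is good if for every good `s ∈ T` with `t ⊂ s` one has `y s ∉ t`.
Let `G` be the set of good members.  If `s ∈ G`, `t ∈ G`, `s ⊂ t` then `y t ∉ s`.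
Claim: every `u ∈ T` contains a good member.  If `u` is not good there is a good `t ⊃ u` with
`y t ∈ u`.  Since `u ≠ {y t}` and the space is `T1`, `u \ {y t}` is open and nonempty, so it contains
some `v ∈ T`.  The set `{w ∈ T | v ⊆ w, w ⊆ u, y t ∉ w}` contains `v` and has a largest member `w`.
`w` is good: let `s ⊃ w` be good; `s` and `u` are comparable (both contain the nonempty `w`).
(a) If `s ⊆ u`: then `v ⊆ s ⊆ u`, and by maximality of `w` we get `y t ∈ s`; but `s ⊂ t` and both are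
good, so `y t ∉ s`, contradiction.  (b) If `u ⊂ s`: `s` and `t` are comparable.  If `s = t`, then
`y s = y t ∉ w`.  If `s ⊂ t` then `y t ∉ s` (both good) but `y t ∈ u ⊆ s`, contradiction.  If `t ⊂ s`
then `y s ∉ t ⊇ w`.

PROOF of `tree_sigma`.  Let `I` be the set of isolated points of `X`, `U₀ := (closure I)ᶜ`,
`T' := {t ∈ T | t ⊆ U₀}`.  Members of `T'` contain no isolated points so `t ≠ {x}` for `t ∈ T'`.
(If `T'` satisfies all clauses except that its members form a pi-base of `U₀` only, redo the argument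
above for `T'`; the statement `exists_good` below is formulated so that it applies to `T'`.)
Choose `y t ∈ t` and `G` as in `exists_good`.  `D := I ∪ y '' G` is dense.  Apply `DSep` to the constant
sequence `D`: discrete `F n ⊆ D` with dense union.  Put `𝒜 n := {t ∈ G | y t ∈ F n}`.
(1) For `s, t ∈ G` with `y s ∈ t` one has `s ⊆ t` (they meet, so they are comparable, and `t ⊂ s` is
excluded by `y s ∉ t`); in particular `y` is injective on `G`.
(2) `𝒜 n` is nowhere dense: every `u ∈ G` contains `v ∈ G` such that no `a ∈ 𝒜 n` satisfies `a ⊆ v`.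
If no `a ∈ 𝒜 n` is contained in `u` take `v = u`.  Otherwise take such an `a` and an isolating open
`W ∋ y a` for `y a ∈ F n`; `(W ∩ a) \ {y a}` is open and nonempty, take `v ∈ G` inside; if
`a' ∈ 𝒜 n`, `a' ⊆ v` then `y a' ∈ W ∩ F n` so `y a' = y a`, but `y a ∉ v`, contradiction.
(3) `⋃ n, 𝒜 n` is dense: every `t ∈ G` contains a member of some `𝒜 n` (there is a point of some
`F n` in `t`; it is not isolated so it is `y s` with `s ∈ G`; by (1) `s ⊆ t`).
(4) Let `E n := {u ∈ G | no a ∈ 𝒜 0 ∪ ... ∪ 𝒜 n satisfies a ⊆ u}` and let `C n` be the set of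
`⊆`-maximal elements of `E n` (maximal in `E n`).  Different members of `C n` are disjoint.
(5) `⋃ n, C n` together with the disjoint family `{{x} | x ∈ I}` is a pi-base: let `U` be open,
nonempty, without isolated points; then `U ⊆ U₀`; take `t ∈ G`, `t ⊆ U`, and `d ∈ 𝒜 n`, `d ⊆ t` by (3).
By (2) (applied `n + 1` times) some `u ∈ E n` is contained in `d`; the supersets of `u` in `E n` have a
largest member `s`, and `s ∈ C n`.  `s` and `d` are comparable; `d ⊆ s` is impossible as `d ∈ 𝒜 n` and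
`s ∈ E n`; so `s ⊆ d ⊆ t ⊆ U`.
-/

namespace Pool.Agent.Work.MP_b4417b_gt

open Cardinal Set

theorem exists_good {X : Type} [TopologicalSpace X] [T1Space X] (T : Set (Set X))
    (hne : ∀ t ∈ T, IsOpen t ∧ t.Nonempty)
    (hpi : ∀ t ∈ T, ∀ U : Set X, IsOpen U → U.Nonempty → U ⊆ t → ∃ s ∈ T, s ⊆ U)
    (hcomp : ∀ s ∈ T, ∀ t ∈ T, Disjoint s t ∨ s ⊆ t ∨ t ⊆ s)
    (hwf : ∀ t ∈ T, ∀ S : Set (Set X), S ⊆ {s ∈ T | t ⊆ s} → S.Nonempty →
      ∃ m ∈ S, ∀ s ∈ S, s ⊆ m)
    (hcr : ∀ t ∈ T, ∀ x : X, t ≠ {x}) (y : Set X → X) (hy : ∀ t ∈ T, y t ∈ t) :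
    ∃ G : Set (Set X), G ⊆ T ∧ (∀ u ∈ T, ∃ g ∈ G, g ⊆ u) ∧
      ∀ s ∈ G, ∀ t ∈ G, s ⊂ t → y t ∉ s := by
  have _ := hy
  let R : Set X → Set X → Prop := fun s t => s ∈ T ∧ t ∈ T ∧ t ⊂ s
  have hR : WellFounded R := by
    rw [WellFounded.wellFounded_iff_has_min]
    rintro S' ⟨t, ht⟩
    by_cases htT : t ∈ T
    · obtain ⟨m, ⟨hmS, hmT, htm⟩, hmax⟩ := hwf t htT {s | s ∈ S' ∧ s ∈ T ∧ t ⊆ s}
        (fun s hs => ⟨hs.2.1, hs.2.2⟩) ⟨t, ht, htT, subset_rfl⟩
      refine ⟨m, hmS, fun x hx hxm => ?_⟩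
      have h1 := hmax x ⟨hx, hxm.1, htm.trans hxm.2.2.1⟩
      exact hxm.2.2.2 h1
    · exact ⟨t, ht, fun x _ hx => htT hx.2.1⟩
  obtain ⟨good, hgood⟩ : ∃ good : Set X → Prop, ∀ t, good t ↔
      (t ∈ T ∧ ∀ s, R s t → good s → y s ∉ t) := by
    refine ⟨hR.fix (C := fun _ => Prop) fun t ih => t ∈ T ∧ ∀ s (h : R s t), ih s h → y s ∉ t,
      fun t => ?_⟩
    rw [hR.fix_eq]
  have hcomp' : ∀ s ∈ T, ∀ t ∈ T, ∀ w : Set X, w.Nonempty → w ⊆ s → w ⊆ t → s ⊆ t ∨ t ⊆ s := by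
    rintro s hs t ht w ⟨x, hx⟩ hws hwt
    rcases hcomp s hs t ht with h | h
    · exact absurd (hwt hx) (disjoint_left.1 h (hws hx))
    · exact h
  refine ⟨{t | good t}, fun t ht => ((hgood t).1 ht).1, fun u hu => ?_, fun s hs t ht hst => ?_⟩
  · by_cases hgu : good u
    · exact ⟨u, hgu, subset_rfl⟩
    · rw [hgood u, not_and] at hgu
      have h1 := hgu hu
      push Not at h1
      obtain ⟨t, htu, hgt, hytu⟩ := h1
      have htT := htu.1
      obtain ⟨z, hz, hzy⟩ : ∃ z ∈ u, z ≠ y t := by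
        by_contra hcon
        push Not at hcon
        exact hcr u hu (y t) (Subset.antisymm (fun z hz => hcon z hz)
          (singleton_subset_iff.2 hytu))
      obtain ⟨v, hvT, hv⟩ := hpi u hu (u \ {y t}) ((hne u hu).1.sdiff isClosed_singleton)
        ⟨z, hz, hzy⟩ sdiff_subset
      have hvy : y t ∉ v := fun h => (hv h).2 rfl
      obtain ⟨w, ⟨hwT, hvw, hwu, hyw⟩, hwmax⟩ := hwf v hvT
        {w | w ∈ T ∧ v ⊆ w ∧ w ⊆ u ∧ y t ∉ w} (fun w hw => ⟨hw.1, hw.2.1⟩)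
        ⟨v, hvT, subset_rfl, hv.trans sdiff_subset, hvy⟩
      refine ⟨w, (hgood w).2 ⟨hwT, fun s hsw hgs => ?_⟩, hwu⟩
      have hsT := hsw.1
      have hws : w ⊂ s := hsw.2.2
      have hwn := (hne w hwT).2
      have key : s ⊆ u → y s ∉ w := by
        intro hsu
        exfalso
        have h2 : y t ∈ s := by
          by_contra h3
          exact hws.2 (hwmax s ⟨hsT, hvw.trans hws.1, hsu, h3⟩)
        have h4 : s ⊂ t := ⟨hsu.trans htu.2.2.1, fun h => htu.2.2.2 (h.trans hsu)⟩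
        exact ((hgood s).1 hgs).2 t ⟨htT, hsT, h4⟩ hgt h2
      rcases hcomp' s hsT u hu w hwn hws.1 hwu with h2 | h2
      · exact key h2
      · by_cases h3 : s ⊆ u
        · exact key h3
        · rcases hcomp' s hsT t htT u (hne u hu).2 h2 htu.2.2.1 with h4 | h4
          · by_cases h5 : t ⊆ s
            · have h6 : s = t := Subset.antisymm h4 h5
              rw [h6]
              exact hyw
            · exfalso
              exact ((hgood s).1 hgs).2 t ⟨htT, hsT, h4, h5⟩ hgt (h2 hytu)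
          · by_cases h5 : s ⊆ t
            · have h6 : s = t := Subset.antisymm h5 h4
              rw [h6]
              exact hyw
            · have h6 := ((hgood t).1 hgt).2 s ⟨hsT, htT, h4, h5⟩ hgs
              exact fun h7 => h6 (htu.2.2.1 (hwu h7))
  · exact ((hgood s).1 hs).2 t ⟨((hgood t).1 ht).1, ((hgood s).1 hs).1, hst⟩ ht

theorem tree_sigma {X : Type} [TopologicalSpace X] [T1Space X] (T : Set (Set X))
    (hT : IsTreePiBase T) (hX : DSep X) : SigmaDisjointPiBase X := by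
  obtain ⟨⟨hT1, hT2⟩, hcomp, hwf⟩ := hT
  rcases isEmpty_or_nonempty X with hemp | hnon
  · refine ⟨fun _ => ∅, fun _ => pairwiseDisjoint_empty, ?_, ?_⟩
    · intro b hb
      simp at hb
    · rintro U _ ⟨x, _⟩
      exact (hemp.false x).elim
  set I : Set X := {x | IsOpen ({x} : Set X)} with hI
  set U₀ : Set X := (closure I)ᶜ with hU₀
  set T' : Set (Set X) := {t | t ∈ T ∧ t ⊆ U₀} with hT'
  have hIU : ∀ x ∈ I, x ∉ U₀ := fun x hx h => h (subset_closure hx)
  have hsing : ∀ t, IsOpen t → t ⊆ U₀ → ∀ x, t ≠ {x} := by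
    intro t ht htU x hx
    have h1 : x ∈ I := by
      rw [hI, mem_ofPred_eq, ← hx]
      exact ht
    exact hIU x h1 (htU (hx ▸ mem_singleton x))
  have hcomp' : ∀ s ∈ T, ∀ t ∈ T, ∀ w : Set X, w.Nonempty → w ⊆ s → w ⊆ t → s ⊆ t ∨ t ⊆ s := by
    rintro s hs t ht w ⟨x, hx⟩ hws hwt
    rcases hcomp s hs t ht with h | h
    · exact absurd (hwt hx) (disjoint_left.1 h (hws hx))
    · exact h
  -- a point in every member
  have hyex : ∀ t : Set X, ∃ x : X, t ∈ T' → x ∈ t := by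
    intro t
    by_cases ht : t ∈ T'
    · obtain ⟨x, hx⟩ := (hT1 t ht.1).2
      exact ⟨x, fun _ => hx⟩
    · exact ⟨hnon.some, fun h => absurd h ht⟩
  choose y hy using hyex
  obtain ⟨G, hGT, hGd, hGy⟩ := exists_good T' (fun t ht => hT1 t ht.1)
    (fun t ht U hU hUn hUt => by
      obtain ⟨s, hs, hsU⟩ := hT2 U hU hUn
      exact ⟨s, ⟨hs, (hsU.trans hUt).trans ht.2⟩, hsU⟩)
    (fun s hs t ht => hcomp s hs.1 t ht.1)
    (fun t ht S hS hSn => hwf t ht.1 S (fun s hs => ⟨(hS hs).1.1, (hS hs).2⟩) hSn)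
    (fun t ht x => hsing t (hT1 t ht.1).1 ht.2 x) y hy
  -- members of `G` inside open sets
  have hGin : ∀ U : Set X, IsOpen U → U.Nonempty → U ⊆ U₀ → ∃ g ∈ G, g ⊆ U := by
    intro U hU hUn hUU
    obtain ⟨t, ht, htU⟩ := hT2 U hU hUn
    obtain ⟨g, hg, hgt⟩ := hGd t ⟨ht, htU.trans hUU⟩
    exact ⟨g, hg, hgt.trans htU⟩
  have hUcase : ∀ U : Set X, IsOpen U → (∃ x ∈ U, x ∈ I) ∨ U ⊆ U₀ := by
    intro U hU
    by_cases h : ∃ x ∈ U, x ∈ I
    · exact Or.inl h
    · right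
      push Not at h
      intro x hx hxc
      obtain ⟨z, hzU, hzI⟩ := mem_closure_iff.1 hxc U hU hx
      exact h z hzU hzI
  have hDd : Dense (I ∪ y '' G) := by
    rw [dense_iff_inter_open]
    intro U hU hUn
    rcases hUcase U hU with ⟨x, hx, hxI⟩ | h
    · exact ⟨x, hx, Or.inl hxI⟩
    · obtain ⟨g, hg, hgU⟩ := hGin U hU hUn h
      exact ⟨y g, hgU (hy g (hGT hg)), Or.inr ⟨g, hg, rfl⟩⟩
  rw [dsep_iff] at hX
  obtain ⟨F, hF, hFd⟩ := hX (fun _ => I ∪ y '' G) (fun _ => hDd)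
  set A : ℕ → Set (Set X) := fun n => {t | t ∈ G ∧ y t ∈ F n} with hA
  -- (1)
  have s1 : ∀ s ∈ G, ∀ t ∈ G, y s ∈ t → s ⊆ t := by
    intro s hs t ht hst
    have hys := hy s (hGT hs)
    rcases hcomp' s (hGT hs).1 t (hGT ht).1 {y s} (singleton_nonempty _)
      (singleton_subset_iff.2 hys) (singleton_subset_iff.2 hst) with h | h
    · exact h
    · by_contra h1
      exact hGy t ht s hs ⟨h, h1⟩ hst
  -- (2)
  have s2 : ∀ n, ∀ u ∈ G, ∃ v ∈ G, v ⊆ u ∧ ∀ a ∈ A n, ¬ a ⊆ v := by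
    intro n u hu
    by_cases h : ∃ a ∈ A n, a ⊆ u
    · obtain ⟨a, ⟨haG, haF⟩, hau⟩ := h
      obtain ⟨W, hW, hyW, hW'⟩ := (hF n).2 (y a) haF
      have haT := hGT haG
      have hya := hy a haT
      have hao := (hT1 a haT.1).1
      have hne : ((W ∩ a) \ {y a}).Nonempty := by
        by_contra hcon
        rw [not_nonempty_iff_eq_empty, sdiff_eq_empty] at hcon
        refine hsing (W ∩ a) (hW.inter hao) (inter_subset_right.trans haT.2) (y a) ?_
        exact Subset.antisymm hcon (singleton_subset_iff.2 ⟨hyW, hya⟩)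
      obtain ⟨v, hv, hvs⟩ := hGin ((W ∩ a) \ {y a}) ((hW.inter hao).sdiff isClosed_singleton) hne
        ((sdiff_subset.trans inter_subset_right).trans haT.2)
      refine ⟨v, hv, ((hvs.trans sdiff_subset).trans inter_subset_right).trans hau, ?_⟩
      rintro a' ⟨ha'G, ha'F⟩ ha'v
      have h1 := ha'v (hy a' (hGT ha'G))
      have h2 := hvs h1
      exact h2.2 (hW' (y a') ha'F h2.1.1)
    · exact ⟨u, hu, subset_rfl, fun a ha hau => h ⟨a, ha, hau⟩⟩
  -- (3)
  have s3 : ∀ t ∈ G, ∃ n, ∃ a ∈ A n, a ⊆ t := by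
    intro t ht
    have htT := hGT ht
    obtain ⟨z, hzt, hzF⟩ := hFd.inter_open_nonempty t (hT1 t htT.1).1 (hT1 t htT.1).2
    obtain ⟨n, hn⟩ := mem_iUnion.1 hzF
    rcases (hF n).1 hn with h | ⟨s, hs, rfl⟩
    · exact absurd (htT.2 hzt) (hIU z h)
    · exact ⟨n, s, ⟨hs, hn⟩, s1 s hs t ht hzt⟩
  -- (4)
  set E : ℕ → Set (Set X) := fun n => {u | u ∈ G ∧ ∀ m ≤ n, ∀ a ∈ A m, ¬ a ⊆ u} with hE
  set C : ℕ → Set (Set X) := fun n => {s | s ∈ E n ∧ ∀ s' ∈ E n, s ⊆ s' → s' = s} with hC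
  have s4 : ∀ n, (C n).PairwiseDisjoint id := by
    rintro n s ⟨hs, hsm⟩ t ⟨ht, htm⟩ hne
    simp only [Function.onFun, id]
    rcases hcomp s (hGT hs.1).1 t (hGT ht.1).1 with h | h | h
    · exact h
    · exact absurd (hsm t ht h).symm hne
    · exact absurd (htm s hs h) hne
  have s5 : ∀ n, ∀ u ∈ G, ∃ v ∈ E n, v ⊆ u := by
    intro n
    induction n with
    | zero =>
      intro u hu
      obtain ⟨v, hv, hvu, hva⟩ := s2 0 u hu
      exact ⟨v, ⟨hv, fun m hm => by rw [Nat.le_zero.1 hm]; exact hva⟩, hvu⟩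
    | succ n ih =>
      intro u hu
      obtain ⟨v, ⟨hv, hv'⟩, hvu⟩ := ih u hu
      obtain ⟨w, hw, hwv, hwa⟩ := s2 (n + 1) v hv
      refine ⟨w, ⟨hw, fun m hm a ha haw => ?_⟩, hwv.trans hvu⟩
      rcases Nat.lt_or_ge n m with h | h
      · have h1 : m = n + 1 := by omega
        subst h1
        exact hwa a ha haw
      · exact hv' m h a ha (haw.trans hwv)
  refine ⟨fun n => Nat.casesOn n ((fun x => ({x} : Set X)) '' I) C, fun n => ?_, ?_, ?_⟩
  · cases n with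
    | zero =>
      rintro _ ⟨x, _, rfl⟩ _ ⟨z, _, rfl⟩ hne
      simp only [Function.onFun, id, disjoint_singleton]
      rintro rfl
      exact hne rfl
    | succ n => exact s4 n
  · intro b hb
    obtain ⟨n, hn⟩ := mem_iUnion.1 hb
    cases n with
    | zero =>
      obtain ⟨x, hx, rfl⟩ := hn
      exact ⟨hx, singleton_nonempty x⟩
    | succ n => exact hT1 b (hGT hn.1.1).1
  · intro U hU hUn
    rcases hUcase U hU with ⟨x, hx, hxI⟩ | h
    · exact ⟨{x}, mem_iUnion.2 ⟨0, x, hxI, rfl⟩, singleton_subset_iff.2 hx⟩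
    · obtain ⟨t, ht, htU⟩ := hGin U hU hUn h
      obtain ⟨n, d, hd, hdt⟩ := s3 t ht
      obtain ⟨u, hu, hud⟩ := s5 n d hd.1
      obtain ⟨s, ⟨hsE, hus⟩, hsm⟩ := hwf u (hGT hu.1).1 {s | s ∈ E n ∧ u ⊆ s}
        (fun s hs => ⟨(hGT hs.1.1).1, hs.2⟩) ⟨u, hu, subset_rfl⟩
      refine ⟨s, mem_iUnion.2 ⟨n + 1, hsE, fun s' hs' hss' => ?_⟩, ?_⟩
      · exact Subset.antisymm (hsm s' ⟨hs', hus.trans hss'⟩) hss'
      · rcases hcomp' s (hGT hsE.1).1 d (hGT hd.1).1 u (hT1 u (hGT hu.1).1).2 hus hud with h1 | h1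
        · exact (h1.trans hdt).trans htU
        · exact absurd h1 (hsE.2 n le_rfl d hd)

end Pool.Agent.Work.MP_b4417b_gt
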